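import Pool.Agent.Work.MP_80ff4e_al_helper39.C11b

/-!
Block C11, part 3: all `N m` have finite index.
-/

set_option autoImplicit false
set_option linter.unusedSectionVars false

namespace PCF

open SelfSim

variable {G X : Type} [Group G] [Fintype X] {S : SelfSim G X}

/-- If all sections except the one at `x` lie in `N 1`, so does the one at `x`. -/
lemma sec_mem_N (hC : Core S) {a : G} (ha : a ∈ S.LSt 1) (x : X)
    (h : ∀ x', x' ≠ x → S.sec a x' ∈ S.N 1) : S.sec a x ∈ S.N 1 := by
  classical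
  have hX := hC.nonempty
  obtain ⟨a', ha', -, h1, h2⟩ := kill ⊤ 1 ((lev X 1).erase [x]) ha fun v hv hv1 => by
    obtain ⟨x', rfl⟩ := List.length_eq_one_iff.1 hv1
    have hne : x' ≠ x := fun e => (Finset.mem_erase.1 hv).1 (by rw [e])
    obtain ⟨k, hk⟩ := h x' hne [x'] rfl
    exact ⟨k, trivial, hk⟩
  have h3 : S.IsAt a' [x] (S.sec a x) := by
    refine ⟨ha', h2 [x] rfl (Finset.notMem_erase _ _), fun u hu hne => ?_⟩
    exact h1 u hu (Finset.mem_erase.2 ⟨hne, mem_lev.2 hu⟩)
  exact mem_N_of_isAt hC.selfrep hC.levTrans h3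

/-- `N 1` has finite index. -/
lemma N1_finiteIndex (hC : Core S) (hC10 : Stmt_C10) : (S.N 1).FiniteIndex := by
  classical
  have hX := hC.nonempty
  have hN : (S.N 1).Normal := N_normal hC.selfrep 1
  obtain ⟨J, hJ, hJf, hJN⟩ := hC10 G X S hC 1
  have hGfg := hC.fg
  have hJfg : Group.FG J := Subgroup.fg_of_index_ne_zero J
  -- the abelianisation of `J`
  let A := Additive (Abelianization J)
  have hAfg : AddGroup.FG A := by
    have : Group.FG (Abelianization J) := QuotientGroup.fg _
    exact inferInstance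
  let of : J → A := fun g => Additive.ofMul (Abelianization.of g)
  have hof_mul : ∀ g g' : J, of (g * g') = of g + of g' := fun g g' => by
    change Additive.ofMul (Abelianization.of (g * g')) = _
    rw [map_mul]
    rfl
  have hof_one : of 1 = 0 := by
    change Additive.ofMul (Abelianization.of (1 : J)) = _
    rw [map_one]
    rfl
  have hof_inv : ∀ g : J, of g⁻¹ = - of g := fun g => by
    change Additive.ofMul (Abelianization.of g⁻¹) = _
    rw [map_inv]
    rfl
  have hof_pow : ∀ (g : J) (k : ℕ), of (g ^ k) = k • of g := fun g k => by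
    change Additive.ofMul (Abelianization.of (g ^ k)) = _
    rw [map_pow]
    rfl
  have hof_eq : ∀ g : J, of g = 0 → (g : G) ∈ S.N 1 := by
    intro g hg
    have h2 : g ∈ commutator J := by
      have h3 : Abelianization.of g = 1 := hg
      rwa [← MonoidHom.mem_ker, Abelianization.ker_of] at h3
    apply hJN
    change (g : G) ∈ ⁅J, J⁆
    have h4 : (commutator J).map J.subtype = ⁅J, J⁆ := by
      rw [commutator_def, Subgroup.map_commutator, ← MonoidHom.range_eq_map, Subgroup.range_subtype]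
    rw [← h4]
    exact ⟨g, h2, rfl⟩
  -- the relations
  let Λ : AddSubgroup (X → A) :=
    { carrier := {l | ∃ a ∈ S.secIn 1 J, ∀ x, ∃ h : J, of h = l x ∧ (h : G)⁻¹ * S.sec a x ∈ S.N 1}
      zero_mem' := ⟨1, Subgroup.one_mem _, fun x => ⟨1, hof_one, by simp⟩⟩
      add_mem' := by
        rintro l l' ⟨a, ha, h1⟩ ⟨a', ha', h1'⟩
        refine ⟨a * a', Subgroup.mul_mem _ ha ha', fun x => ?_⟩
        obtain ⟨h, h2, h3⟩ := h1 x
        obtain ⟨h', h2', h3'⟩ := h1' x
        refine ⟨h * h', by rw [hof_mul, h2, h2']; rfl, ?_⟩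
        have e1 : S.sec (a * a') x = S.sec a x * S.sec a' x :=
          S.wsec_mul_of_LSt (w := [x]) ha'.1 rfl
        have e2 : ((h * h' : J) : G)⁻¹ * S.sec (a * a') x =
            ((h' : G)⁻¹ * ((h : G)⁻¹ * S.sec a x) * (h' : G)⁻¹⁻¹) * ((h' : G)⁻¹ * S.sec a' x) := by
          rw [e1, Subgroup.coe_mul]
          group
        rw [e2]
        exact Subgroup.mul_mem _ (hN.conj_mem _ h3 _) h3'
      neg_mem' := by
        rintro l ⟨a, ha, h1⟩
        refine ⟨a⁻¹, Subgroup.inv_mem _ ha, fun x => ?_⟩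
        obtain ⟨h, h2, h3⟩ := h1 x
        refine ⟨h⁻¹, by rw [hof_inv, h2]; rfl, ?_⟩
        have e1 : S.sec a⁻¹ x = (S.sec a x)⁻¹ := by
          have h4 := S.wsec_mul_of_LSt (g := a⁻¹) (w := [x]) ha.1 rfl
          rw [inv_mul_cancel, S.wsec_one] at h4
          exact eq_inv_of_mul_eq_one_left h4.symm
        have e2 : ((h⁻¹ : J) : G)⁻¹ * S.sec a⁻¹ x =
            (h : G) * ((h : G)⁻¹ * S.sec a x)⁻¹ * (h : G)⁻¹ := by
          rw [e1, Subgroup.coe_inv]
          group
        rw [e2]
        exact hN.conj_mem _ (Subgroup.inv_mem _ h3) _ }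
  have hBfg : AddGroup.FG ((X → A) ⧸ Λ) := by
    have : Module.Finite ℤ A := Module.Finite.iff_addGroup_fg.2 hAfg
    have : AddGroup.FG (X → A) := Module.Finite.iff_addGroup_fg.1 inferInstance
    infer_instance
  -- all homomorphisms vanish
  have hhom : ∀ (ψ : (X → A) ⧸ Λ →+ ℚ) (x : X) (y : J),
      ψ (QuotientAddGroup.mk (Pi.single x (of y))) = 0 := by
    intro ψ
    have hex : ∀ x : X, ∃ c : G → ℚ, IsVHom c ∧ ∀ g : J,
        c g = ψ (QuotientAddGroup.mk (Pi.single x (of g))) := by
      intro x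
      obtain ⟨c, hc, hc'⟩ := isVHom_extend J hJf
        (fun g => if hg : g ∈ J then ψ (QuotientAddGroup.mk (Pi.single x (of ⟨g, hg⟩))) else 0) (by
          intro a ha b hb
          rw [dif_pos ha, dif_pos hb, dif_pos (J.mul_mem ha hb), ← map_add,
            ← QuotientAddGroup.mk_add, ← Pi.single_add, ← hof_mul]
          rfl)
      exact ⟨c, hc, fun g => by rw [hc' g g.2, dif_pos g.2]⟩
    choose ζ hζ hζ' using hex
    obtain ⟨k, hk, hkJ⟩ := exists_pow_mem_fi J hJf
    have hk0 : (k : ℚ) ≠ 0 := Nat.cast_ne_zero.2 hk.ne'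
    have hz := rel_zero hC hC10 ζ hζ (fun x h hh => ?_) (fun a ha => ?_)
    · intro x y
      rw [← hζ', hz]
    · -- `N 1` is killed
      have h1 : ζ x (h ^ k) = 0 := by
        have h2 := hζ' x ⟨h ^ k, hkJ h⟩
        change ζ x (h ^ k) = _ at h2
        rw [h2]
        have h3 : Pi.single x (of ⟨h ^ k, hkJ h⟩) ∈ Λ := by
          refine ⟨1, Subgroup.one_mem _, fun x' => ?_⟩
          by_cases hx : x' = x
          · subst hx
            refine ⟨⟨h ^ k, hkJ h⟩, by rw [Pi.single_eq_same], ?_⟩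
            have h4 : S.sec 1 x' = 1 := S.sec_one x'
            rw [h4, mul_one]
            exact Subgroup.inv_mem _ (Subgroup.pow_mem _ hh k)
          · exact ⟨1, by rw [Pi.single_eq_of_ne hx]; exact hof_one, by simp⟩
        rw [(QuotientAddGroup.eq_zero_iff _).2 h3, map_zero]
      rw [(hζ x).1] at h1
      exact (mul_eq_zero.1 h1).resolve_left hk0
    · -- the relation
      obtain ⟨m, hm, hmS⟩ := exists_pow_mem_fi (S.secIn 1 J) (S.secIn_finiteIndex 1 hJf)
      have hm0 : (m : ℚ) ≠ 0 := Nat.cast_ne_zero.2 hm.ne'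
      have h1 : ∀ b ∈ S.secIn 1 J, ∑ x, ζ x (S.sec b x) = 0 := by
        intro b hb
        have hbJ : ∀ x, S.sec b x ∈ J := fun x => hb.2 [x] rfl
        have h2 : ∀ x, ζ x (S.sec b x) =
            ψ (QuotientAddGroup.mk (Pi.single x (of ⟨S.sec b x, hbJ x⟩))) := fun x =>
          hζ' x ⟨S.sec b x, hbJ x⟩
        rw [Finset.sum_congr rfl fun x _ => h2 x, ← map_sum]
        have h3 : ∑ x, (QuotientAddGroup.mk (Pi.single x (of ⟨S.sec b x, hbJ x⟩)) :
            (X → A) ⧸ Λ) = QuotientAddGroup.mk (fun x => of ⟨S.sec b x, hbJ x⟩) := by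
          rw [← Finset.univ_sum_single (fun x => of ⟨S.sec b x, hbJ x⟩)]
          exact (map_sum (QuotientAddGroup.mk' Λ) _ _).symm
        rw [h3]
        have h4 : (fun x => of ⟨S.sec b x, hbJ x⟩) ∈ Λ :=
          ⟨b, hb, fun x => ⟨⟨S.sec b x, hbJ x⟩, rfl, by simp⟩⟩
        rw [(QuotientAddGroup.eq_zero_iff _).2 h4, map_zero]
      have h2 := h1 _ (hmS a)
      have h3 : ∀ x, ζ x (S.sec (a ^ m) x) = m * ζ x (S.sec a x) := by
        intro x
        rw [show S.sec (a ^ m) x = S.sec a x ^ m from wsec_pow39 (v := [x]) ha rfl m, (hζ x).1]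
      rw [Finset.sum_congr rfl fun x _ => h3 x, ← Finset.mul_sum] at h2
      exact (mul_eq_zero.1 h2).resolve_left hm0
  -- hence the quotient is torsion
  have htor : ∀ y : J, ∃ k : ℕ, 0 < k ∧ ((y : G) ^ k) ∈ S.N 1 := by
    intro y
    obtain ⟨x⟩ := hX
    obtain ⟨k, hk, h1⟩ := stmt_D3 ((X → A) ⧸ Λ) hBfg
      (QuotientAddGroup.mk (Pi.single x (of y))) (fun φ => hhom φ x y)
    refine ⟨k, hk, ?_⟩
    have h2 : k • Pi.single x (of y) ∈ Λ := by
      rw [← QuotientAddGroup.eq_zero_iff]
      exact h1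
    obtain ⟨a, ha, h3⟩ := h2
    have h4 : S.sec a x ∈ S.N 1 := by
      refine sec_mem_N hC ha.1 x fun x' hx' => ?_
      obtain ⟨h, h5, h6⟩ := h3 x'
      rw [Pi.smul_apply, Pi.single_eq_of_ne hx', smul_zero] at h5
      have h7 := hof_eq h h5
      have := Subgroup.mul_mem _ h7 h6
      rwa [mul_inv_cancel_left] at this
    obtain ⟨h, h5, h6⟩ := h3 x
    rw [Pi.smul_apply, Pi.single_eq_same, ← hof_pow] at h5
    have h7 : (h : G) ∈ S.N 1 := by
      have := Subgroup.mul_mem _ h4 (Subgroup.inv_mem _ h6)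
      rwa [mul_inv_rev, inv_inv, mul_inv_cancel_left] at this
    have h8 : of (y ^ k * h⁻¹) = 0 := by
      rw [hof_mul, hof_inv, h5, add_neg_cancel]
    have h9 := Subgroup.mul_mem _ (hof_eq _ h8) h7
    simpa using h9
  -- a finitely generated torsion abelian group is finite
  let N' : Subgroup J := (S.N 1).subgroupOf J
  have hN' : N'.Normal := Subgroup.normal_subgroupOf
  let inst : CommGroup (J ⧸ N') :=
    { (inferInstance : Group (J ⧸ N')) with
      mul_comm := by
        intro p q
        induction p using QuotientGroup.induction_on with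
        | H a =>
        induction q using QuotientGroup.induction_on with
        | H b =>
        rw [← QuotientGroup.mk_mul, ← QuotientGroup.mk_mul, QuotientGroup.eq]
        change ((a * b : J)⁻¹ * (b * a) : J).1 ∈ S.N 1
        apply hof_eq
        rw [hof_mul, hof_inv, hof_mul, hof_mul]
        abel }
  have hfin : Finite (J ⧸ N') := by
    have : Group.FG (J ⧸ N') := QuotientGroup.fg _
    refine CommGroup.finite_of_fg_torsion (J ⧸ N') fun p => ?_
    induction p using QuotientGroup.induction_on with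
    | H y =>
    obtain ⟨k, hk, h1⟩ := htor y
    rw [isOfFinOrder_iff_pow_eq_one]
    refine ⟨k, hk, ?_⟩
    rw [← QuotientGroup.mk_pow, QuotientGroup.eq_one_iff]
    exact h1
  have h1 : (S.N 1).relIndex J ≠ 0 := by
    have : N'.FiniteIndex := Subgroup.finiteIndex_of_finite_quotient
    exact this.index_ne_zero
  have h2 : (S.N 1 ⊓ J).FiniteIndex := by
    constructor
    rw [← Subgroup.relIndex_mul_index (inf_le_right : S.N 1 ⊓ J ≤ J), Subgroup.inf_relIndex_right]
    exact mul_ne_zero h1 hJf.index_ne_zero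
  exact Subgroup.finiteIndex_of_le (inf_le_left : S.N 1 ⊓ J ≤ S.N 1)

theorem stmt_C11 (hC10 : Stmt_C10) : Stmt_C11 := by
  intro G X _ _ S hC m
  have hX := hC.nonempty
  have h1 := N1_finiteIndex hC hC10
  induction m with
  | zero =>
    have : S.N 0 = ⊤ := by
      rw [eq_top_iff]
      intro h _ v hv
      rw [List.length_eq_zero_iff] at hv
      subst hv
      exact ⟨h, fun w hw => by rw [List.length_eq_zero_iff.1 hw]; rfl, rfl, fun u hu hne =>
        absurd (List.length_eq_zero_iff.1 hu) hne⟩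
    rw [this]
    infer_instance
  | succ n ih =>
    obtain ⟨x⟩ := hX
    have hX : Nonempty X := ⟨x⟩
    -- `h ↦ h @ x`
    have hex : ∀ h : S.N 1, ∃ k, S.IsAt k [x] (h : G) := fun h => h.2 [x] rfl
    choose ι hι using hex
    let ιh : S.N 1 →* G :=
      { toFun := ι
        map_one' := (hι 1).unique hC.faithful (IsAt.one S [x])
        map_mul' := fun a b => (hι (a * b)).unique hC.faithful ((hι a).mul (hι b)) }
    have h2 : ((S.N n).comap ιh).FiniteIndex := by
      constructor
      rw [Subgroup.index_comap]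
      exact Subgroup.FiniteIndex.index_ne_zero (H := (S.N n).subgroupOf ιh.range)
    have h3 : (S.N n).comap ιh ≤ (S.N (n + 1)).subgroupOf (S.N 1) := by
      intro h hh
      change (h : G) ∈ S.N (n + 1)
      obtain ⟨u, k, hu, hk⟩ := (mem_N_iff hC.selfrep hC.levTrans).1
        (show ι h ∈ S.N n from hh)
      rw [mem_N_iff hC.selfrep hC.levTrans]
      exact ⟨u ++ [x], k, by simp [hu], hk.comp (hι h)⟩
    have h4 := Subgroup.finiteIndex_of_le h3
    constructor
    rw [← Subgroup.relIndex_mul_index (show S.N (n + 1) ≤ S.N 1 from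
      N_antitone hC.faithful (by omega))]
    exact mul_ne_zero h4.index_ne_zero h1.index_ne_zero

end PCF
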