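import Pool.Agent.Work.MP_80ff4e_al.Interface

/-!
Block W: winding numbers.
-/

set_option autoImplicit false

open unitInterval

namespace PCF

/-- Two continuous logarithms of the same function that agree at `0` are equal. -/
lemma exp_lift_unique {L L' : I → ℂ} (h : Continuous L) (h' : Continuous L')
    (he : ∀ s, Complex.exp (L s) = Complex.exp (L' s)) (h0 : L 0 = L' 0) : L = L' :=
  Complex.isCoveringMap_exp.eq_of_comp_eq h h' (funext fun s => Subtype.ext (he s)) 0 h0

lemma exists_log (u : C(I, ℂ)) (hu : ∀ s, u s ≠ 0) : ∃ L : C(I, ℂ), ∀ s, u s = Complex.exp (L s) := by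
  let u' : C(I, {z : ℂ // z ≠ 0}) := ⟨fun s => ⟨u s, hu s⟩, by fun_prop⟩
  obtain ⟨L, hL, -⟩ := Complex.isCoveringMap_exp.exists_path_lifts u' (Complex.log (u 0))
    (Subtype.ext (Complex.exp_log (hu 0)).symm)
  exact ⟨L, fun s => (congrArg Subtype.val (congrFun hL s)).symm⟩

lemma wind_exists (u : C(I, ℂ)) (hu : ∀ s, u s ≠ 0) (h01 : u 0 = u 1) : ∃ k, Wind u k := by
  obtain ⟨L, hL⟩ := exists_log u hu
  have h : Complex.exp (L 1) = Complex.exp (L 0) := by rw [← hL, ← hL, h01]
  obtain ⟨n, hn⟩ := Complex.exp_eq_exp_iff_exists_int.1 h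
  exact ⟨n, L, hL, by rw [hn]; ring⟩

lemma two_pi_I_cancel {k l : ℤ} (h : 2 * (Real.pi : ℂ) * Complex.I * k = 2 * Real.pi * Complex.I * l) :
    k = l := by
  have := mul_left_cancel₀ Complex.two_pi_I_ne_zero h
  exact_mod_cast this

/-- Differences of logarithms of a function are constant. -/
lemma log_diff {L L' : I → ℂ} (h : Continuous L) (h' : Continuous L')
    (he : ∀ s, Complex.exp (L s) = Complex.exp (L' s)) (s : I) : L s - L' s = L 0 - L' 0 := by
  have h1 : L = fun s => L' s + (L 0 - L' 0) := by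
    apply exp_lift_unique h (by fun_prop)
    · intro s
      rw [Complex.exp_add, Complex.exp_sub, he 0, div_self (Complex.exp_ne_zero _), mul_one, he]
    · ring
  conv_lhs => rw [h1]
  ring

lemma wind_unique (u : C(I, ℂ)) (k l : ℤ) (hk : Wind u k) (hl : Wind u l) : k = l := by
  obtain ⟨L, hL, hk⟩ := hk
  obtain ⟨L', hL', hl⟩ := hl
  apply two_pi_I_cancel
  rw [← hk, ← hl]
  have := log_diff L.continuous L'.continuous (fun s => by rw [← hL, ← hL']) 1
  linear_combination this

lemma wind_mul (u v : C(I, ℂ)) (k l : ℤ) (hk : Wind u k) (hl : Wind v l) :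
    Wind (u * v) (k + l) := by
  obtain ⟨L, hL, hk⟩ := hk
  obtain ⟨L', hL', hl⟩ := hl
  refine ⟨L + L', fun s => ?_, ?_⟩
  · rw [ContinuousMap.mul_apply, ContinuousMap.add_apply, Complex.exp_add, hL, hL']
  · rw [ContinuousMap.add_apply, ContinuousMap.add_apply]
    push_cast
    linear_combination hk + hl

lemma wind_const (c : ℂ) (hc : c ≠ 0) : Wind (ContinuousMap.const I c) 0 :=
  ⟨ContinuousMap.const I (Complex.log c), fun s => by
    rw [ContinuousMap.const_apply, ContinuousMap.const_apply, Complex.exp_log hc], by simp⟩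

lemma wind_homotopy (H : C(I × I, ℂ)) (h0 : ∀ p, H p ≠ 0) (h1 : ∀ r, H (r, 0) = H (r, 1)) (k : ℤ)
    (hk : Wind (H.comp ⟨fun s => (0, s), by fun_prop⟩) k) :
    Wind (H.comp ⟨fun s => (1, s), by fun_prop⟩) k := by
  obtain ⟨L, hL, hk⟩ := hk
  let H' : C(I × I, {z : ℂ // z ≠ 0}) := ⟨fun p => ⟨H p, h0 p⟩, by fun_prop⟩
  have hH0 : ∀ a, H' (0, a) = (⟨Complex.exp (L a), Complex.exp_ne_zero _⟩ : {z : ℂ // z ≠ 0}) :=
    fun a => Subtype.ext (hL a)
  let Γ : C(I × I, ℂ) := Complex.isCoveringMap_exp.liftHomotopy H' L hH0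
  have hΓ : ∀ p, H p = Complex.exp (Γ p) := fun p => (congrArg Subtype.val
    (congrFun (Complex.isCoveringMap_exp.liftHomotopy_lifts H' L hH0) p)).symm
  have hΓ0 : ∀ a, Γ (0, a) = L a := Complex.isCoveringMap_exp.liftHomotopy_zero H' L hH0
  refine ⟨Γ.comp ⟨fun s => (1, s), by fun_prop⟩, fun s => hΓ _, ?_⟩
  have h2 := log_diff (L := fun r => Γ (r, 1)) (L' := fun r => Γ (r, 0)) (by fun_prop)
    (by fun_prop) (fun r => by rw [← hΓ, ← hΓ, h1]) 1
  change Γ (1, 1) - Γ (1, 0) = _
  rw [h2, hΓ0, hΓ0, hk]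

lemma wind_close (u : C(I, ℂ)) (c : ℂ) (h01 : u 0 = u 1) (h : ∀ s, ‖u s - c‖ < ‖c‖) : Wind u 0 := by
  have hc : c ≠ 0 := by
    rintro rfl
    have := h 0
    rw [norm_zero] at this
    exact absurd this (not_lt.2 (norm_nonneg _))
  have hs : ∀ s, u s / c ∈ Complex.slitPlane := by
    intro s
    have e : u s / c = 1 + (u s - c) / c := by field_simp; ring
    rw [e]
    apply Complex.mem_slitPlane_of_norm_lt_one
    rw [norm_div, div_lt_one (norm_pos_iff.2 hc)]
    exact h s
  refine ⟨⟨fun s => Complex.log (u s / c) + Complex.log c, ?_⟩, fun s => ?_, ?_⟩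
  · exact (Continuous.clog (by fun_prop) hs).add continuous_const
  · change u s = Complex.exp (Complex.log (u s / c) + Complex.log c)
    rw [Complex.exp_add, Complex.exp_log hc, Complex.exp_log (Complex.slitPlane_ne_zero (hs s)),
      div_mul_cancel₀ _ hc]
  · change (Complex.log (u 1 / c) + Complex.log c) - (Complex.log (u 0 / c) + Complex.log c) = _
    rw [h01]
    simp

lemma wind_circle (r : ℝ) (k : ℤ) (hr : 0 < r) :
    Wind ⟨fun s => r * Complex.exp (2 * Real.pi * Complex.I * k * s), by fun_prop⟩ k := by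
  refine ⟨⟨fun s => Real.log r + 2 * Real.pi * Complex.I * k * (s : ℝ), by fun_prop⟩, fun s => ?_, ?_⟩
  · change (r : ℂ) * Complex.exp _ = Complex.exp (Real.log r + 2 * Real.pi * Complex.I * k * (s : ℝ))
    rw [Complex.exp_add, ← Complex.ofReal_exp, Real.exp_log hr]
  · change (Real.log r + 2 * Real.pi * Complex.I * k * ((1 : I) : ℝ) : ℂ) -
      (Real.log r + 2 * Real.pi * Complex.I * k * ((0 : I) : ℝ)) = _
    simp

lemma wind_trans (a : ℂ) (u v : Path a a) (k l : ℤ) (hk : Wind u.toContinuousMap k)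
    (hl : Wind v.toContinuousMap l) : Wind (u.trans v).toContinuousMap (k + l) := by
  obtain ⟨L, hL, hk⟩ := hk
  obtain ⟨L', hL', hl⟩ := hl
  let P : Path (L 0) (L 1) := ⟨L, rfl, rfl⟩
  let Q : Path (L 1) (L' 1 + (L 1 - L' 0)) :=
    ⟨⟨fun s => L' s + (L 1 - L' 0), by fun_prop⟩, by simp, by simp⟩
  have e1 : Complex.exp (L 1) = a := by rw [← hL]; exact u.target
  have e2 : Complex.exp (L' 0) = a := by rw [← hL']; exact v.source
  have ha : a ≠ 0 := by rw [← e1]; exact Complex.exp_ne_zero _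
  refine ⟨(P.trans Q).toContinuousMap, fun s => ?_, ?_⟩
  · change (u.trans v) s = Complex.exp ((P.trans Q) s)
    rw [Path.trans_apply, Path.trans_apply]
    split_ifs with hs
    · exact hL _
    · change v _ = Complex.exp (L' _ + (L 1 - L' 0))
      rw [Complex.exp_add, Complex.exp_sub, e1, e2, div_self ha, mul_one]
      exact hL' _
  · change (P.trans Q) 1 - (P.trans Q) 0 = _
    rw [Path.target, Path.source]
    push_cast
    linear_combination hk + hl

lemma wind_move (u : C(I, ℂ)) (a b : ℂ) (γ : Path a b) (k : ℤ) (h : ∀ s r, u s ≠ γ r)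
    (hk : Wind (u - ContinuousMap.const I a) k) : Wind (u - ContinuousMap.const I b) k := by
  have h01 : u 0 = u 1 := by
    obtain ⟨L, hL, hk⟩ := hk
    have h0 := hL 0
    have h1 := hL 1
    have e : L 1 = L 0 + k * (2 * Real.pi * Complex.I) := by linear_combination hk
    rw [e, Complex.exp_add, Complex.exp_int_mul_two_pi_mul_I, mul_one, ← h0] at h1
    have h2 : u 1 - a = u 0 - a := h1
    linear_combination -h2
  let H : C(I × I, ℂ) := ⟨fun p => u p.2 - γ p.1, by fun_prop⟩
  have e0 : H.comp ⟨fun s => (0, s), by fun_prop⟩ = u - ContinuousMap.const I a := by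
    ext s
    change u s - γ 0 = u s - a
    rw [γ.source]
  have e1 : H.comp ⟨fun s => (1, s), by fun_prop⟩ = u - ContinuousMap.const I b := by
    ext s
    change u s - γ 1 = u s - b
    rw [γ.target]
  have := wind_homotopy H (fun p => sub_ne_zero.2 (h _ _)) (fun r => by
    change u 0 - γ r = u 1 - γ r
    rw [h01]) k (by rw [e0]; exact hk)
  rwa [e1] at this

theorem stmt_W : Stmt_W :=
  ⟨wind_exists, wind_unique, wind_mul, wind_const, wind_homotopy, wind_close, wind_circle,
    wind_trans, wind_move⟩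

end PCF
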