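import Pool.Agent.Work.MP_80ff4e_al.Interface

/-!
Block V: virtual homomorphisms to `ℚ`.
-/

set_option autoImplicit false

namespace PCF

variable {G : Type} [Group G]

lemma IsVHom.map_one {φ : G → ℚ} (h : IsVHom φ) : φ 1 = 0 := by
  have := h.1 1 0
  simpa using this

lemma exists_pow_mem_fi (J : Subgroup G) (hJ : J.FiniteIndex) :
    ∃ k : ℕ, 0 < k ∧ ∀ g : G, g ^ k ∈ J := by
  refine ⟨J.normalCore.index, Nat.pos_of_ne_zero (Subgroup.FiniteIndex.index_ne_zero), fun g => ?_⟩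
  exact J.normalCore_le (Subgroup.pow_index_mem _ g)

lemma vadd_pow {J : Subgroup G} {φ : G → ℚ} (h : ∀ a ∈ J, ∀ b ∈ J, φ (a * b) = φ a + φ b) :
    φ 1 = 0 ∧ (∀ a ∈ J, φ a⁻¹ = - φ a) ∧ ∀ a ∈ J, ∀ n : ℕ, φ (a ^ n) = n * φ a := by
  have h1 : φ 1 = 0 := by
    have := h 1 J.one_mem 1 J.one_mem
    rw [mul_one] at this
    linarith
  refine ⟨h1, fun a ha => ?_, fun a ha n => ?_⟩
  · have := h a ha a⁻¹ (J.inv_mem ha)
    rw [mul_inv_cancel, h1] at this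
    linarith
  · induction n with
    | zero => simp [h1]
    | succ n ih =>
      rw [pow_succ, h _ (J.pow_mem ha n) _ ha, ih]
      push_cast
      ring

lemma isVHom_add (φ ψ : G → ℚ) (h : IsVHom φ) (h' : IsVHom ψ) : IsVHom (fun g => φ g + ψ g) := by
  obtain ⟨h1, J, hJ, hJ', h2⟩ := h
  obtain ⟨h1', J', hJn, hJf, h2'⟩ := h'
  refine ⟨fun g n => by dsimp only; rw [h1, h1']; ring, J ⊓ J', inferInstance, inferInstance, ?_⟩
  intro a ha b hb
  dsimp only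
  rw [h2 a ha.1 b hb.1, h2' a ha.2 b hb.2]
  ring

lemma isVHom_smul (c : ℚ) (φ : G → ℚ) (h : IsVHom φ) : IsVHom (fun g => c * φ g) := by
  obtain ⟨h1, J, hJ, hJ', h2⟩ := h
  refine ⟨fun g n => by dsimp only; rw [h1]; ring, J, hJ, hJ', ?_⟩
  intro a ha b hb
  dsimp only
  rw [h2 a ha b hb]
  ring

lemma isVHom_comm (φ : G → ℚ) (h : IsVHom φ) (a b : G) (hab : a * b = b * a) :
    φ (a * b) = φ a + φ b := by
  obtain ⟨h1, J, hJ, hJ', h2⟩ := h
  obtain ⟨k, hk, hkJ⟩ := exists_pow_mem_fi J hJ'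
  have h3 : φ ((a * b) ^ k) = φ (a ^ k) + φ (b ^ k) := by
    rw [(show Commute a b from hab).mul_pow]
    exact h2 _ (hkJ a) _ (hkJ b)
  rw [h1, h1, h1] at h3
  have hk' : (k : ℚ) ≠ 0 := Nat.cast_ne_zero.2 hk.ne'
  exact mul_left_cancel₀ hk' (by rw [h3]; ring)

lemma conj_pow' (g h : G) (n : ℕ) : (g⁻¹ * h * g) ^ n = g⁻¹ * h ^ n * g := by
  have := conj_pow (i := n) (a := g⁻¹) (b := h)
  rwa [inv_inv] at this

lemma isVHom_conj (φ : G → ℚ) (h : IsVHom φ) (g : G) : IsVHom (fun x => φ (g⁻¹ * x * g)) := by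
  obtain ⟨h1, J, hJ, hJ', h2⟩ := h
  refine ⟨fun x n => ?_, J, hJ, hJ', fun a ha b hb => ?_⟩
  · dsimp only
    rw [← conj_pow', h1]
  · dsimp only
    have e : g⁻¹ * (a * b) * g = (g⁻¹ * a * g) * (g⁻¹ * b * g) := by group
    have m : ∀ x ∈ J, g⁻¹ * x * g ∈ J := fun x hx => by
      have := hJ.conj_mem x hx g⁻¹
      rwa [inv_inv] at this
    rw [e, h2 _ (m a ha) _ (m b hb)]

lemma isVHom_conj_eq (φ : G → ℚ) (h : IsVHom φ) : ∃ J : Subgroup G, J.Normal ∧ J.FiniteIndex ∧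
    ∀ g ∈ J, ∀ x : G, φ (g⁻¹ * x * g) = φ x := by
  obtain ⟨h1, J, hJ, hJ', h2⟩ := h
  refine ⟨J, hJ, hJ', fun g hg x => ?_⟩
  obtain ⟨k, hk, hkJ⟩ := exists_pow_mem_fi J hJ'
  obtain ⟨-, hinv, -⟩ := vadd_pow h2
  have h3 : φ (g⁻¹ * x ^ k * g) = φ (x ^ k) := by
    rw [h2 _ (J.mul_mem (J.inv_mem hg) (hkJ x)) _ hg, h2 _ (J.inv_mem hg) _ (hkJ x), hinv g hg]
    ring
  rw [← conj_pow', h1, h1] at h3
  exact mul_left_cancel₀ (Nat.cast_ne_zero.2 hk.ne') h3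

lemma isVHom_ext (φ ψ : G → ℚ) (h : IsVHom φ) (h' : IsVHom ψ) (J : Subgroup G)
    (hJ : J.FiniteIndex) (he : ∀ g ∈ J, φ g = ψ g) : φ = ψ := by
  obtain ⟨k, hk, hkJ⟩ := exists_pow_mem_fi J hJ
  funext g
  have := he _ (hkJ g)
  rw [h.1, h'.1] at this
  exact mul_left_cancel₀ (Nat.cast_ne_zero.2 hk.ne') this

lemma isVHom_extend (J : Subgroup G) (hJ : J.FiniteIndex) (φ : G → ℚ)
    (h : ∀ a ∈ J, ∀ b ∈ J, φ (a * b) = φ a + φ b) :
    ∃ ψ : G → ℚ, IsVHom ψ ∧ ∀ a ∈ J, ψ a = φ a := by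
  obtain ⟨k, hk, hkJ⟩ := exists_pow_mem_fi J hJ
  obtain ⟨h1, hinv, hpow⟩ := vadd_pow h
  have hk' : (k : ℚ) ≠ 0 := Nat.cast_ne_zero.2 hk.ne'
  have hJa : ∀ a ∈ J, φ (a ^ k) / k = φ a := fun a ha => by
    rw [hpow a ha, mul_div_cancel_left₀ _ hk']
  refine ⟨fun g => φ (g ^ k) / k, ⟨fun g n => ?_, J.normalCore, inferInstance, inferInstance,
    fun a ha b hb => ?_⟩, hJa⟩
  · dsimp only
    rw [← pow_mul, mul_comm n k, pow_mul, hpow _ (hkJ g)]
    ring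
  · dsimp only
    have ha' := J.normalCore_le ha
    have hb' := J.normalCore_le hb
    rw [hJa _ (J.mul_mem ha' hb'), hJa _ ha', hJa _ hb', h _ ha' _ hb']

open MulAction Subgroup Function in
lemma isVHom_inv (φ : G → ℚ) (h : IsVHom φ) (hinv : ∀ g x : G, φ (g⁻¹ * x * g) = φ x) (a b : G) :
    φ (a * b) = φ a + φ b := by
  classical
  obtain ⟨h1, J, hJ, hJ', h2⟩ := h
  let ϕ : J →* Multiplicative ℚ :=
    { toFun := fun x => Multiplicative.ofAdd (φ x)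
      map_one' := by
        have := (vadd_pow h2).1
        simp [this]
      map_mul' := fun x y => by
        rw [← ofAdd_add, ← h2 x x.2 y y.2]
        rfl }
  let _ := J.fintypeQuotientOfFiniteIndex
  have key : ∀ g : G, MonoidHom.transfer ϕ g = Multiplicative.ofAdd (J.index * φ g) := by
    intro g
    rw [MonoidHom.transfer_eq_prod_quotient_orbitRel_zpowers_quot]
    have e1 : ∀ q : Quotient (orbitRel (zpowers g) (G ⧸ J)),
        ϕ ⟨q.out.out⁻¹ * g ^ Function.minimalPeriod (g • ·) q.out * q.out.out,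
          QuotientGroup.out_conj_pow_minimalPeriod_mem J g q.out⟩ =
        Multiplicative.ofAdd ((Function.minimalPeriod (g • ·) q.out : ℚ) * φ g) := by
      intro q
      change Multiplicative.ofAdd (φ (q.out.out⁻¹ * g ^ Function.minimalPeriod (g • ·) q.out *
        q.out.out)) = _
      rw [hinv, h1]
    rw [Finset.prod_congr rfl fun q _ => e1 q, ← ofAdd_sum, ← Finset.sum_mul, ← Nat.cast_sum]
    congr 3
    rw [index_eq_card, Nat.card_eq_fintype_card,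
      Fintype.card_congr (selfEquivSigmaOrbits (zpowers g) (G ⧸ J)), Fintype.card_sigma]
    exact Finset.sum_congr rfl fun q _ => minimalPeriod_eq_card _ _
  have h3 : Multiplicative.ofAdd ((J.index : ℚ) * φ (a * b)) =
      Multiplicative.ofAdd (J.index * φ a) * Multiplicative.ofAdd (J.index * φ b) := by
    rw [← key, ← key, ← key, map_mul]
  rw [← ofAdd_add] at h3
  have h4 : (J.index : ℚ) * φ (a * b) = J.index * φ a + J.index * φ b := h3
  have hk' : (J.index : ℚ) ≠ 0 := Nat.cast_ne_zero.2 hJ'.index_ne_zero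
  exact mul_left_cancel₀ hk' (by rw [h4]; ring)

lemma isVHom_mul_mem (φ : G → ℚ) (h : IsVHom φ) (N : Subgroup G) (hN : N.Normal)
    (h0 : ∀ n ∈ N, φ n = 0) (g : G) (n : G) (hn : n ∈ N) : φ (g * n) = φ g := by
  obtain ⟨h1, J, hJ, hJ', h2⟩ := h
  obtain ⟨k, hk, hkJ⟩ := exists_pow_mem_fi J hJ'
  have hm : (g ^ k)⁻¹ * (g * n) ^ k ∈ N := by
    rw [← QuotientGroup.eq (s := N)]
    rw [QuotientGroup.mk_pow, QuotientGroup.mk_pow]
    congr 1
    rw [QuotientGroup.eq (s := N)]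
    simpa using hn
  have hmJ : (g ^ k)⁻¹ * (g * n) ^ k ∈ J := J.mul_mem (J.inv_mem (hkJ g)) (hkJ _)
  have h3 : φ ((g * n) ^ k) = φ (g ^ k) := by
    have e : (g * n) ^ k = g ^ k * ((g ^ k)⁻¹ * (g * n) ^ k) := by group
    rw [e, h2 _ (hkJ g) _ hmJ, h0 _ hm, add_zero]
  rw [h1, h1] at h3
  exact mul_left_cancel₀ (Nat.cast_ne_zero.2 hk.ne') h3

lemma isVHom_comap {H : Type} [Group H] (q : H →* G) (φ : G → ℚ) (h : IsVHom φ) :
    IsVHom (fun x => φ (q x)) := by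
  obtain ⟨h1, J, hJ, hJ', h2⟩ := h
  refine ⟨fun g n => by dsimp only; rw [map_pow, h1], J.comap q, inferInstance, ⟨?_⟩,
    fun a ha b hb => ?_⟩
  · rw [Subgroup.index_comap]
    exact Subgroup.FiniteIndex.index_ne_zero (H := J.subgroupOf q.range)
  dsimp only
  rw [map_mul, h2 _ ha _ hb]

theorem stmt_V : Stmt_V := by
  intro G _
  exact ⟨isVHom_add, isVHom_smul, isVHom_comm, isVHom_conj, isVHom_conj_eq, isVHom_ext,
    isVHom_extend, isVHom_inv, isVHom_mul_mem, fun H _ q φ h => isVHom_comap q φ h⟩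

end PCF
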