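import Pool.Agent.Work.MP_80ff4e_al_helper39.GENc

/-!
Block GEN, part 4: the van Kampen argument and the induction.
-/

set_option autoImplicit false

open Polynomial unitInterval

namespace PCF

variable {f : ℂ[X]} {P : Set ℂ}

/-- Change of the base point. -/
lemma genAt_base (hA : Adm f P) {C : Set ℂ} {b b₀ : ℂ} (ς : Path b b₀) (hς : Av P ς)
    (hςC : ∀ s, ς s ∈ C) (h : GenAt f P C b₀) : GenAt f P C b := by
  obtain ⟨g₀, hg₀, hgen⟩ := h
  have hb : b ∉ P := by rw [← ς.source]; exact hς 0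
  have hb₀ : b₀ ∉ P := by rw [← ς.target]; exact hς 1
  have hex : ∀ z, ∃ θ : Path b b, z ∈ P → z ∈ C → Gd P z θ ∧
      ∀ n x y, Cj f ς (fun n x y => Tr f n (g₀ z) x y) n x y ↔ Tr f n θ x y := by
    intro z
    by_cases hz : z ∈ P ∧ z ∈ C
    · obtain ⟨a, η, ρ, δ, h1, h2, h3⟩ := hg₀ z hz.1 hz.2
      refine ⟨((ς.trans η).trans δ).trans (ς.trans η).symm, fun _ _ =>
        ⟨⟨a, ς.trans η, ρ, δ, hς.trans h1, h2, rfl⟩, fun n x y => ?_⟩⟩
      rw [h3]
      constructor
      · rintro ⟨u, v, h4, h5, h6⟩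
        obtain ⟨p, h7, h8⟩ := tr_trans_iff.1 h5
        obtain ⟨q, h9, h10⟩ := tr_trans_iff.1 h7
        exact tr_trans (tr_trans (tr_trans h4 h9) h10) (tr_symm (tr_trans h6 (tr_symm_iff.1 h8)))
      · intro h4
        obtain ⟨p, h5, h6⟩ := tr_trans_iff.1 h4
        obtain ⟨q, h7, h8⟩ := tr_trans_iff.1 h5
        obtain ⟨u, h9, h10⟩ := tr_trans_iff.1 h7
        obtain ⟨v, h11, h12⟩ := tr_trans_iff.1 (tr_symm_iff.1 h6)
        exact ⟨u, v, h9, tr_trans (tr_trans h10 h8) (tr_symm h12), h11⟩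
    · exact ⟨Path.refl b, fun h1 h2 => absurd ⟨h1, h2⟩ hz⟩
  choose g hg using hex
  refine ⟨g, fun z hz hzC => (hg z hz hzC).1, fun γ hγ hγC => ?_⟩
  -- the conjugated loop
  let γ₀ : Path b₀ b₀ := (ς.symm.trans γ).trans ς
  have hγ₀ : Av P γ₀ := (hς.symm.trans hγ).trans hς
  have hγ₀C : ∀ s, γ₀ s ∈ C := trans_mem (trans_mem (fun s => hςC _) hγC) hςC
  have h1 := cj_gen hA hb hb₀ ς hς (S := SG P C g) (S₀ := SG P C g₀) (fun θ hθ => ?_)
    (hgen γ₀ hγ₀ hγ₀C)
  · refine genRel_congr h1 fun n x y => ?_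
    constructor
    · intro h2
      obtain ⟨u, hu⟩ := tr_exists hA n ς hς x (tr_ends h2).1
      obtain ⟨v, hv⟩ := tr_exists hA n ς hς y (tr_ends h2).2
      exact ⟨u, v, hu, tr_trans (tr_trans (tr_symm hu) h2) hv, hv⟩
    · rintro ⟨u, v, h2, h3, h4⟩
      obtain ⟨p, h5, h6⟩ := tr_trans_iff.1 h3
      obtain ⟨q, h7, h8⟩ := tr_trans_iff.1 h5
      rw [tr_unique' hA hς h2 (tr_symm_iff.1 h7), tr_unique' hA hς h4 h6]
      exact h8
  · obtain ⟨z, hz, hzC, h2 | h2⟩ := hθ
    · refine ⟨g z, ⟨z, hz, hzC, Or.inl rfl⟩, fun n x y => ?_⟩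
      rw [h2]
      exact (hg z hz hzC).2 n x y
    · refine ⟨(g z).symm, ⟨z, hz, hzC, Or.inr rfl⟩, fun n x y => ?_⟩
      rw [h2, tr_symm_iff, ← (hg z hz hzC).2 n y x]
      constructor
      · rintro ⟨u, v, h3, h4, h5⟩
        exact ⟨v, u, h5, tr_symm_iff.1 h4, h3⟩
      · rintro ⟨u, v, h3, h4, h5⟩
        exact ⟨v, u, h5, tr_symm h4, h3⟩

/-- The part of `γ` between `s` and `s'`. -/
noncomputable def sub {a b : ℂ} (γ : Path a b) (s s' : I) : Path (γ s) (γ s') := γ.subpath s s'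

lemma sub_mem {a b : ℂ} (γ : Path a b) {s s' : I} (h : s ≤ s') {C : Set ℂ}
    (hC : ∀ r ∈ Set.Icc s s', γ r ∈ C) (r : I) : sub γ s s' r ∈ C := by
  have h1 : sub γ s s' r ∈ Set.range (γ.subpath s s') := ⟨r, rfl⟩
  rw [Path.range_subpath_of_le _ _ _ h] at h1
  obtain ⟨t, ht, h2⟩ := h1
  rw [← h2]
  exact hC t ht

lemma sub_av {a b : ℂ} (γ : Path a b) (hγ : Av P γ) (s s' : I) : Av P (sub γ s s') :=
  fun _ => hγ _

/-- The path in the interval. -/
noncomputable def sg (s s' : I) : Path s s' :=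
  ⟨⟨Set.Icc.convexComb s s', by fun_prop⟩, by simp, by simp⟩

lemma sub_trans (hA : Adm f P) {a b : ℂ} (γ : Path a b) (hγ : Av P γ) (s s' s'' : I) (n : ℕ)
    (x z : ℂ) : Tr f n (sub γ s s'') x z ↔
      ∃ y, Tr f n (sub γ s s') x y ∧ Tr f n (sub γ s' s'') y z := by
  rw [← tr_trans_iff]
  have e : ((sub γ s s').trans (sub γ s' s'')) = ((sg s s').trans (sg s' s'')).map γ.continuous := by
    rw [Path.map_trans]
    rfl
  have hav : ∀ r : I, γ r ∉ P := hγ
  refine teq_of_imp hA (sub_av γ hγ _ _) ((sub_av γ hγ _ _).trans (sub_av γ hγ _ _))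
    (fun n x y h => ?_) n x z
  let τ : I → I := (sg s s').trans (sg s' s'')
  have hτ : Continuous τ := ((sg s s').trans (sg s' s'')).continuous
  refine tr_homotopy_aux hA n
    ⟨fun p => γ (Set.Icc.convexComb (Set.Icc.convexComb s s'' p.2) (τ p.2) p.1), ?_⟩
    (fun p => hav _) (sub γ s s'') _ (fun r => ?_) (fun r => ?_) (fun r => ?_) (fun r => ?_) h
  · fun_prop
  · change γ (Set.Icc.convexComb _ _ 0) = γ (Set.Icc.convexComb s s'' r)
    rw [Set.Icc.convexComb_zero]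
  · change γ (Set.Icc.convexComb _ _ 1) = _
    rw [Set.Icc.convexComb_one, e]
    rfl
  · change γ (Set.Icc.convexComb (Set.Icc.convexComb s s'' 0) (τ 0) r) = γ s
    rw [Set.Icc.convexComb_zero, show τ 0 = s from Path.source _]
    congr 1
    exact Subtype.ext (by simp)
  · change γ (Set.Icc.convexComb (Set.Icc.convexComb s s'' 1) (τ 1) r) = γ s''
    rw [Set.Icc.convexComb_one, show τ 1 = s'' from Path.target _]
    congr 1
    exact Subtype.ext (by simp)

/-- The van Kampen argument. -/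
lemma van_kampen (hA : Adm f P) {U V : Set ℂ} (hU : IsOpen U) (hV : IsOpen V) (hUc : Convex ℝ U)
    (hVc : Convex ℝ V) {b : ℂ} (hbU : b ∈ U) (hbV : b ∈ V) (hb : b ∉ P)
    (hUV : ∀ p ∈ P, p ∈ U → p ∉ V) (S : Set (Path b b))
    (hSU : ∀ γ : Path b b, Av P γ → (∀ s, γ s ∈ U) → GenRel f S (fun n x y => Tr f n γ x y))
    (hSV : ∀ γ : Path b b, Av P γ → (∀ s, γ s ∈ V) → GenRel f S (fun n x y => Tr f n γ x y))
    (γ : Path b b) (hγ : Av P γ) (hγC : ∀ s, γ s ∈ U ∪ V) :
    GenRel f S (fun n x y => Tr f n γ x y) := by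
  have hdis : Disjoint (U ∩ V) P := Set.disjoint_left.2 fun p hp hpP => hUV p hpP hp.1 hp.2
  -- connecting paths
  have hex : ∀ s : I, ∃ c : Path b (γ s), Av P c ∧ (γ s ∈ U → ∀ r, c r ∈ U) ∧
      (γ s ∈ V → ∀ r, c r ∈ V) := by
    intro s
    by_cases h1 : γ s ∈ U
    · by_cases h2 : γ s ∈ V
      · refine ⟨lin b (γ s), fun r => ?_, fun _ => lin_mem hUc hbU h1, fun _ => lin_mem hVc hbV h2⟩
        exact Set.disjoint_left.1 hdis ⟨lin_mem hUc hbU h1 r, lin_mem hVc hbV h2 r⟩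
      · obtain ⟨c, h3, h4⟩ := exists_path_in hU hA.fin hb (hγ s) (lin b (γ s))
          (lin_mem hUc hbU h1)
        exact ⟨c, h3, fun _ => h4, fun h => absurd h h2⟩
    · have h2 : γ s ∈ V := (hγC s).resolve_left h1
      obtain ⟨c, h3, h4⟩ := exists_path_in hV hA.fin hb (hγ s) (lin b (γ s))
        (lin_mem hVc hbV h2)
      exact ⟨c, h3, fun h => absurd h h1, fun _ => h4⟩
  choose c hc hcU hcV using hex
  -- subdivision
  obtain ⟨t, ht0, htm, ⟨N, hN⟩, ht⟩ := exists_monotone_Icc_subset_open_cover_unitInterval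
    (c := fun i : Bool => cond i (γ ⁻¹' U) (γ ⁻¹' V)) (by
      intro i
      cases i
      · exact hV.preimage γ.continuous
      · exact hU.preimage γ.continuous) (by
      intro s _
      rcases hγC s with h | h
      · exact Set.mem_iUnion.2 ⟨true, h⟩
      · exact Set.mem_iUnion.2 ⟨false, h⟩)
  -- the pieces
  have hpiece : ∀ s s' : I, s ≤ s' → ((∀ r ∈ Set.Icc s s', γ r ∈ U) ∨
      (∀ r ∈ Set.Icc s s', γ r ∈ V)) → GenRel f S
        (fun n x y => Tr f n (((c s).trans (sub γ s s')).trans (c s').symm) x y) := by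
    intro s s' hss h
    have hav : Av P (((c s).trans (sub γ s s')).trans (c s').symm) :=
      ((hc s).trans (sub_av γ hγ s s')).trans (hc s').symm
    rcases h with h | h
    · exact hSU _ hav (trans_mem (trans_mem (hcU s (h s ⟨le_rfl, hss⟩)) (sub_mem γ hss h))
        (fun r => hcU s' (h s' ⟨hss, le_rfl⟩) _))
    · exact hSV _ hav (trans_mem (trans_mem (hcV s (h s ⟨le_rfl, hss⟩)) (sub_mem γ hss h))
        (fun r => hcV s' (h s' ⟨hss, le_rfl⟩) _))
  -- the induction along the subdivision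
  have key : ∀ k : ℕ, GenRel f S
      (fun n x y => ∃ u, Tr f n (sub γ 0 (t k)) x u ∧ Tr f n (c (t k)) y u) := by
    intro k
    induction k with
    | zero =>
      rw [ht0]
      -- the path `c 0` is a loop in `U ∩ V`
      have h0U : γ 0 ∈ U := by rw [γ.source]; exact hbU
      have h0V : γ 0 ∈ V := by rw [γ.source]; exact hbV
      refine genRel_congr (genRel_id hA hb S) fun n x y => ?_
      have h1 : ∀ y u, Tr f n (c 0) y u ↔ y = u ∧ it f n y = b := by
        intro y u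
        have e : Tr f n (c 0) y u ↔ Tr f n ((c 0).cast rfl γ.source.symm) y u :=
          tr_val fun _ => rfl
        rw [e, ← tr_refl_iff hA hb]
        have hm : ∀ s, (c 0).cast rfl γ.source.symm s ∈ U ∩ V := fun s =>
          ⟨hcU 0 h0U s, hcV 0 h0V s⟩
        exact ⟨tr_convex hA n _ _ (U ∩ V) (hUc.inter hVc) hdis hm (fun _ => ⟨hbU, hbV⟩),
          tr_convex hA n _ _ (U ∩ V) (hUc.inter hVc) hdis (fun _ => ⟨hbU, hbV⟩) hm⟩
      have h2 : ∀ x u, Tr f n (sub γ 0 0) x u ↔ x = u ∧ it f n x = b := by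
        intro x u
        rw [← tr_refl_iff hA hb]
        exact tr_val fun s => by
          change γ.subpath 0 0 s = b
          rw [Path.subpath_self]
          exact γ.source
      simp only [h1, h2]
      constructor
      · rintro ⟨u, ⟨rfl, h3⟩, rfl, h4⟩
        exact ⟨rfl, h3⟩
      · rintro ⟨rfl, h3⟩
        exact ⟨x, ⟨rfl, h3⟩, rfl, h3⟩
    | succ k ih =>
      obtain ⟨i, hi⟩ := ht k
      have hp := hpiece (t k) (t (k + 1)) (htm (Nat.le_succ k)) (by
        cases i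
        · exact Or.inr fun r hr => hi hr
        · exact Or.inl fun r hr => hi hr)
      refine genRel_congr (genRel_comp hA hb ih hp) fun n x y => ?_
      constructor
      · rintro ⟨u, h1, h2⟩
        obtain ⟨v, h3, h4⟩ := (sub_trans hA γ hγ 0 (t k) (t (k + 1)) n x u).1 h1
        obtain ⟨w, hw⟩ := tr_exists' hA n (c (t k)) (hc _) v (tr_ends h3).2
        exact ⟨w, ⟨v, h3, hw⟩, tr_trans (tr_trans hw h4) (tr_symm h2)⟩
      · rintro ⟨w, ⟨v, h3, hw⟩, h4⟩
        obtain ⟨p, h5, h6⟩ := tr_trans_iff.1 h4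
        obtain ⟨q, h7, h8⟩ := tr_trans_iff.1 h5
        have h9 := tr_unique hA (hc _) h7 hw
        subst h9
        exact ⟨p, (sub_trans hA γ hγ 0 (t k) (t (k + 1)) n x p).2 ⟨q, h3, h8⟩,
          tr_symm_iff.1 h6⟩
  have hlast := key N
  rw [hN N le_rfl] at hlast
  have h1U : γ 1 ∈ U := by rw [γ.target]; exact hbU
  have h1V : γ 1 ∈ V := by rw [γ.target]; exact hbV
  refine genRel_congr hlast fun n x y => ?_
  have h1 : ∀ y u, Tr f n (c 1) y u ↔ y = u ∧ it f n y = b := by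
    intro y u
    have e : Tr f n (c 1) y u ↔ Tr f n ((c 1).cast rfl γ.target.symm) y u :=
      tr_val fun _ => rfl
    rw [e, ← tr_refl_iff hA hb]
    have hm : ∀ s, (c 1).cast rfl γ.target.symm s ∈ U ∩ V := fun s =>
      ⟨hcU 1 h1U s, hcV 1 h1V s⟩
    exact ⟨tr_convex hA n _ _ (U ∩ V) (hUc.inter hVc) hdis hm (fun _ => ⟨hbU, hbV⟩),
      tr_convex hA n _ _ (U ∩ V) (hUc.inter hVc) hdis (fun _ => ⟨hbU, hbV⟩) hm⟩
  have h2 : ∀ x u, Tr f n (sub γ 0 1) x u ↔ Tr f n γ x u := by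
    intro x u
    exact tr_val fun s => by
      change γ.subpath 0 1 s = γ s
      rw [Path.subpath_zero_one]
      rfl
  simp only [h1, h2]
  constructor
  · intro h
    exact ⟨y, h, rfl, (tr_ends h).2⟩
  · rintro ⟨u, h, rfl, -⟩
    exact h

/-- Generation for convex open sets. -/
lemma gen_convex (hA : Adm f P) (m : ℕ) : ∀ C : Set ℂ, IsOpen C → Convex ℝ C →
    (P ∩ C).ncard = m → ∀ b ∈ C, b ∉ P → GenAt f P C b := by
  induction m using Nat.strong_induction_on with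
  | _ m ih =>
    intro C hC hCc hm b hb hbP
    have hfin : (P ∩ C).Finite := hA.fin.subset Set.inter_subset_left
    by_cases h0 : P ∩ C = ∅
    · -- no point
      refine ⟨fun _ => Path.refl b, fun z hz hzC => ?_, fun γ hγ hγC => ?_⟩
      · exact absurd (show z ∈ P ∩ C from ⟨hz, hzC⟩) (by rw [h0]; exact Set.notMem_empty _)
      · have hdis : Disjoint C P := by
          rw [Set.disjoint_iff_inter_eq_empty, Set.inter_comm]
          exact h0
        refine genRel_congr (genRel_id hA hbP _) fun n x y => ?_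
        rw [← tr_refl_iff hA hbP]
        exact ⟨tr_convex hA n _ _ C hCc hdis hγC (fun _ => hb),
          tr_convex hA n _ _ C hCc hdis (fun _ => hb) hγC⟩
    · obtain ⟨z₁, hz₁⟩ := Set.nonempty_iff_ne_empty.2 h0
      by_cases h1 : ∀ p ∈ P, p ∈ C → p = z₁
      · -- one point
        exact Nbd.genAt hA ⟨hC, hCc, hz₁.2, h1⟩ hz₁.1 hb hbP
      · push Not at h1
        obtain ⟨z₂, hz₂, hz₂C, hne⟩ := h1
        -- the linear form
        let ℓ : ℂ →L[ℝ] ℝ := (innerSL ℝ (z₂ - z₁))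
        have hℓ12 : ℓ z₁ < ℓ z₂ := by
          have h2 : ℓ z₂ - ℓ z₁ = ‖z₂ - z₁‖ ^ 2 := by
            rw [← map_sub]
            exact real_inner_self_eq_norm_sq (z₂ - z₁)
          have h3 : 0 < ‖z₂ - z₁‖ := norm_pos_iff.2 (sub_ne_zero.2 hne)
          have : 0 < ℓ z₂ - ℓ z₁ := by rw [h2]; positivity
          linarith
        obtain ⟨c, hc, hcP⟩ : ∃ c ∈ Set.Ioo (ℓ z₁) (ℓ z₂), c ∉ ℓ '' P := by
          by_contra hcon
          push Not at hcon
          exact (Set.Ioo_infinite hℓ12) ((hA.fin.image ℓ).subset hcon)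
        obtain ⟨ε, hε, hball⟩ := Metric.isOpen_iff.1 (hA.fin.image ℓ).isClosed.isOpen_compl c hcP
        have hfar : ∀ p ∈ P, ¬ (c - ε < ℓ p ∧ ℓ p < c + ε) := by
          rintro p hp ⟨h2, h3⟩
          refine hball (Metric.mem_ball.2 ?_) ⟨p, hp, rfl⟩
          rw [Real.dist_eq, abs_lt]
          constructor <;> linarith
        let U : Set ℂ := C ∩ {w | ℓ w < c + ε}
        let V : Set ℂ := C ∩ {w | c - ε < ℓ w}
        have hU : IsOpen U := hC.inter (isOpen_lt ℓ.continuous continuous_const)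
        have hV : IsOpen V := hC.inter (isOpen_lt continuous_const ℓ.continuous)
        have hUc : Convex ℝ U := hCc.inter (convex_halfSpace_lt ℓ.isLinear _)
        have hVc : Convex ℝ V := hCc.inter (convex_halfSpace_gt ℓ.isLinear _)
        -- the point on the segment
        obtain ⟨b₀, hb₀C, hb₀⟩ : ∃ b₀ ∈ C, ℓ b₀ = c := by
          let s : ℝ := (c - ℓ z₁) / (ℓ z₂ - ℓ z₁)
          have hpos : 0 < ℓ z₂ - ℓ z₁ := sub_pos.2 hℓ12
          have hs0 : 0 ≤ s := div_nonneg (by linarith [hc.1]) hpos.le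
          have hs1 : s ≤ 1 := by
            rw [div_le_one hpos]; linarith [hc.2]
          refine ⟨(1 - s) • z₁ + s • z₂, hCc hz₁.2 hz₂C (by linarith) hs0 (by ring), ?_⟩
          rw [map_add, map_smul, map_smul, smul_eq_mul, smul_eq_mul]
          have : s * (ℓ z₂ - ℓ z₁) = c - ℓ z₁ := div_mul_cancel₀ _ hpos.ne'
          linarith
        have hb₀P : b₀ ∉ P := fun h => hcP ⟨b₀, h, hb₀⟩
        have hb₀U : b₀ ∈ U := ⟨hb₀C, by rw [Set.mem_ofPred_eq, hb₀]; linarith⟩
        have hb₀V : b₀ ∈ V := ⟨hb₀C, by rw [Set.mem_ofPred_eq, hb₀]; linarith⟩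
        have hz₂U : z₂ ∉ U := fun h => hfar z₂ hz₂ ⟨by linarith [hc.2], h.2⟩
        have hz₁V : z₁ ∉ V := fun h => hfar z₁ hz₁.1 ⟨h.2, by linarith [hc.1]⟩
        have hcU : (P ∩ U).ncard < m := by
          rw [← hm]
          apply Set.ncard_lt_ncard _ hfin
          refine ⟨fun w hw => ⟨hw.1, hw.2.1⟩, fun h => hz₂U (h ⟨hz₂, hz₂C⟩).2⟩
        have hcV : (P ∩ V).ncard < m := by
          rw [← hm]
          apply Set.ncard_lt_ncard _ hfin
          refine ⟨fun w hw => ⟨hw.1, hw.2.1⟩, fun h => hz₁V (h hz₁).2⟩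
        obtain ⟨gU, hgU, hgenU⟩ := ih _ hcU U hU hUc rfl b₀ hb₀U hb₀P
        obtain ⟨gV, hgV, hgenV⟩ := ih _ hcV V hV hVc rfl b₀ hb₀V hb₀P
        have hUV : ∀ p ∈ P, p ∈ U → p ∉ V := fun p hp hpU hpV => hfar p hp ⟨hpV.2, hpU.2⟩
        have hcover : ∀ w ∈ C, w ∈ U ∨ w ∈ V := by
          intro w hw
          rcases lt_or_ge (ℓ w) (c + ε) with h2 | h2
          · exact Or.inl ⟨hw, h2⟩
          · exact Or.inr ⟨hw, by rw [Set.mem_ofPred_eq]; linarith⟩
        classical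
        let g : ℂ → Path b₀ b₀ := fun z => if z ∈ U then gU z else gV z
        have hb₀gen : GenAt f P C b₀ := by
          refine ⟨g, fun z hz hzC => ?_, fun γ hγ hγC => ?_⟩
          · by_cases h2 : z ∈ U
            · rw [show g z = gU z from if_pos h2]
              exact hgU z hz h2
            · rw [show g z = gV z from if_neg h2]
              exact hgV z hz ((hcover z hzC).resolve_left h2)
          · refine van_kampen hA hU hV hUc hVc hb₀U hb₀V hb₀P hUV _ (fun δ hδ hδU => ?_)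
              (fun δ hδ hδV => ?_) γ hγ (fun s => hcover _ (hγC s))
            · refine genRel_mono ?_ (hgenU δ hδ hδU)
              rintro θ ⟨z, hz, hzU, h2⟩
              refine ⟨z, hz, hzU.1, ?_⟩
              rwa [show g z = gU z from if_pos hzU]
            · refine genRel_mono ?_ (hgenV δ hδ hδV)
              rintro θ ⟨z, hz, hzV, h2⟩
              refine ⟨z, hz, hzV.1, ?_⟩
              rwa [show g z = gV z from if_neg fun h => hUV z hz h hzV]
        obtain ⟨ς, hς, hςC⟩ := exists_path_in hC hA.fin hbP hb₀P (lin b b₀) (lin_mem hCc hb hb₀C)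
        exact genAt_base hA ς hς hςC hb₀gen

theorem stmt_GEN : Stmt_GEN := by
  intro f P hA t ht
  obtain ⟨g, hg, hgen⟩ := gen_convex hA _ Set.univ isOpen_univ convex_univ rfl t trivial ht
  refine ⟨g, fun z hz => hg z hz trivial, fun γ hγ => ?_⟩
  obtain ⟨l, h1, h2⟩ := hgen γ hγ fun _ => trivial
  refine ⟨l, fun θ hθ => ?_, h2⟩
  obtain ⟨z, hz, -, h3⟩ := h1 θ hθ
  exact ⟨z, hz, h3⟩

end PCF
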