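import Pool.Agent.Work.MP_80ff4e_al_helper39.TRb

/-!
Block TR, part 3: perturbation of paths, and the assembly.
-/

set_option autoImplicit false

open Polynomial unitInterval

namespace PCF

variable {f : ℂ[X]} {P : Set ℂ}

/-- A path avoiding a finite set has positive distance from it. -/
lemma exists_dist (hP : P.Finite) {a b : ℂ} (γ : Path a b) (hγ : Av P γ) :
    ∃ ε : ℝ, 0 < ε ∧ ∀ p ∈ P, ∀ s, ε ≤ ‖γ s - p‖ := by
  have h1 : Disjoint (Set.range γ) P := by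
    rw [Set.disjoint_left]
    rintro _ ⟨s, rfl⟩
    exact hγ s
  obtain ⟨δ, hδ, hd⟩ := h1.exists_thickenings (isCompact_range γ.continuous) hP.isClosed
  refine ⟨δ, hδ, fun p hp s => ?_⟩
  by_contra hcon
  push Not at hcon
  refine Set.disjoint_left.1 hd (Metric.mem_thickening_iff.2 ⟨γ s, ⟨s, rfl⟩, ?_⟩)
    (Metric.self_subset_thickening hδ _ hp)
  rw [dist_comm, dist_eq_norm]
  exact hcon

/-- Approximation by a smooth path with the same endpoints. -/
lemma exists_smooth_near {a b : ℂ} (γ : Path a b) {ε : ℝ} (hε : 0 < ε) :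
    ∃ q : ℝ → ℂ, ContDiff ℝ 1 q ∧ q 0 = a ∧ q 1 = b ∧ ∀ s : I, ‖q s - γ s‖ < ε := by
  obtain ⟨A, hA⟩ := exists_polynomial_near_continuousMap 0 1
    (⟨fun s => (γ s).re, by fun_prop⟩ : C(Set.Icc (0 : ℝ) 1, ℝ)) (ε / 8) (by positivity)
  obtain ⟨B, hB⟩ := exists_polynomial_near_continuousMap 0 1
    (⟨fun s => (γ s).im, by fun_prop⟩ : C(Set.Icc (0 : ℝ) 1, ℝ)) (ε / 8) (by positivity)
  have hA' : ∀ s : I, |A.eval (s : ℝ) - (γ s).re| < ε / 8 := by
    intro s
    have := (ContinuousMap.norm_lt_iff _ (by positivity)).1 hA s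
    simpa using this
  have hB' : ∀ s : I, |B.eval (s : ℝ) - (γ s).im| < ε / 8 := by
    intro s
    have := (ContinuousMap.norm_lt_iff _ (by positivity)).1 hB s
    simpa using this
  let q₀ : ℝ → ℂ := fun s => ((A.eval s : ℝ) : ℂ) + ((B.eval s : ℝ) : ℂ) * Complex.I
  have hq₀ : ∀ s : I, ‖q₀ s - γ s‖ < ε / 4 := by
    intro s
    have h1 : q₀ s - γ s = ((A.eval (s : ℝ) - (γ s).re : ℝ) : ℂ) +
        ((B.eval (s : ℝ) - (γ s).im : ℝ) : ℂ) * Complex.I := by
      conv_lhs => rw [← Complex.re_add_im (γ s)]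
      push_cast
      ring
    rw [h1]
    refine (norm_add_le _ _).trans_lt ?_
    rw [norm_mul, Complex.norm_I, mul_one, Complex.norm_real, Complex.norm_real, Real.norm_eq_abs,
      Real.norm_eq_abs]
    linarith [hA' s, hB' s]
  have hq₀s : ContDiff ℝ 1 q₀ := by
    have h1 : ContDiff ℝ 1 (fun s : ℝ => ((A.eval s : ℝ) : ℂ)) :=
      Complex.ofRealCLM.contDiff.comp (by simpa using A.contDiff_aeval (𝕜 := ℝ) (n := 1))
    have h2 : ContDiff ℝ 1 (fun s : ℝ => ((B.eval s : ℝ) : ℂ)) :=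
      Complex.ofRealCLM.contDiff.comp (by simpa using B.contDiff_aeval (𝕜 := ℝ) (n := 1))
    exact h1.add (h2.mul contDiff_const)
  have h0 := hq₀ 0
  have h1 := hq₀ 1
  rw [γ.source] at h0
  rw [γ.target] at h1
  have hofReal : ContDiff ℝ 1 (fun s : ℝ => (s : ℂ)) := Complex.ofRealCLM.contDiff
  refine ⟨fun s => q₀ s + (1 - (s : ℂ)) * (a - q₀ 0) + (s : ℂ) * (b - q₀ 1), ?_, ?_, ?_, fun s => ?_⟩
  · exact (hq₀s.add ((contDiff_const.sub hofReal).mul contDiff_const)).add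
      (hofReal.mul contDiff_const)
  · simp
  · simp
  · have h3 : q₀ s + (1 - ((s : ℝ) : ℂ)) * (a - q₀ 0) + ((s : ℝ) : ℂ) * (b - q₀ 1) - γ s =
        (q₀ s - γ s) + ((1 - ((s : ℝ) : ℂ)) * (a - q₀ 0) + ((s : ℝ) : ℂ) * (b - q₀ 1)) := by ring
    rw [h3]
    refine (norm_add_le _ _).trans_lt ?_
    have h4 : ‖(1 - ((s : ℝ) : ℂ)) * (a - q₀ 0)‖ ≤ ε / 4 := by
      rw [norm_mul]
      have e1 : ‖(1 - ((s : ℝ) : ℂ))‖ ≤ 1 := by
        rw [← Complex.ofReal_one, ← Complex.ofReal_sub, Complex.norm_real, Real.norm_eq_abs,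
          abs_of_nonneg (sub_nonneg.2 s.2.2)]
        linarith [s.2.1]
      have e2 : ‖a - q₀ 0‖ ≤ ε / 4 := by
        rw [norm_sub_rev]
        exact h0.le
      calc _ ≤ 1 * (ε / 4) := mul_le_mul e1 e2 (norm_nonneg _) zero_le_one
        _ = ε / 4 := one_mul _
    have h5 : ‖((s : ℝ) : ℂ) * (b - q₀ 1)‖ ≤ ε / 4 := by
      rw [norm_mul]
      have e1 : ‖((s : ℝ) : ℂ)‖ ≤ 1 := by
        rw [Complex.norm_real, Real.norm_eq_abs, abs_of_nonneg s.2.1]
        exact s.2.2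
      have e2 : ‖b - q₀ 1‖ ≤ ε / 4 := by
        rw [norm_sub_rev]
        exact h1.le
      calc _ ≤ 1 * (ε / 4) := mul_le_mul e1 e2 (norm_nonneg _) zero_le_one
        _ = ε / 4 := one_mul _
    have h6 := norm_add_le ((1 - ((s : ℝ) : ℂ)) * (a - q₀ 0)) (((s : ℝ) : ℂ) * (b - q₀ 1))
    have h7 := hq₀ s
    linarith

/-- Perturbation: near any path there is a path with the same endpoints that avoids a given
finite set. -/
lemma exists_perturb (P' : Set ℂ) (hP' : P'.Finite) {a b : ℂ} (ha : a ∉ P') (hb : b ∉ P')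
    (γ : Path a b) {ε : ℝ} (hε : 0 < ε) :
    ∃ γ' : Path a b, Av P' γ' ∧ ∀ s, ‖γ' s - γ s‖ < ε := by
  obtain ⟨q, hq, hq0, hq1, hqγ⟩ := exists_smooth_near γ (half_pos hε)
  let g : ℂ → ℝ → ℂ := fun p s => ((s * (1 - s) : ℝ) : ℂ)⁻¹ * (p - q s)
  have hg : ∀ p, ContDiffOn ℝ 1 (g p) (Set.Ioo 0 1) := by
    intro p
    apply ContDiffOn.mul
    · apply ContDiffOn.inv
      · have h1 : ContDiff ℝ 1 (fun s : ℝ => s * (1 - s)) := by fun_prop
        exact (Complex.ofRealCLM.contDiff.comp h1).contDiffOn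
      · intro s hs
        have : (0 : ℝ) < s * (1 - s) := mul_pos hs.1 (sub_pos.2 hs.2)
        exact_mod_cast this.ne'
    · exact (contDiff_const.sub hq).contDiffOn
  let B : Set ℂ := ⋃ p ∈ P', g p '' Set.Ioo 0 1
  have hB : dimH B < Module.finrank ℝ ℂ := by
    have h1 : dimH B = ⨆ p ∈ P', dimH (g p '' Set.Ioo 0 1) := dimH_bUnion hP'.countable _
    rw [h1, Complex.finrank_real_complex]
    have h2 : ∀ p ∈ P', dimH (g p '' Set.Ioo 0 1) ≤ 1 := fun p _ =>
      ((hg p).dimH_image_le (convex_Ioo 0 1) (le_refl _)).trans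
        ((dimH_mono (Set.subset_univ _)).trans Real.dimH_univ.le)
    refine (iSup₂_le h2).trans_lt ?_
    norm_num
  have hdense := dense_compl_of_dimH_lt_finrank hB
  obtain ⟨v, hvB, hv⟩ := hdense.exists_dist_lt 0 (half_pos hε)
  rw [dist_comm, dist_zero_right] at hv
  have hcont : Continuous q := hq.continuous
  let γ' : Path a b :=
    ⟨⟨fun s => q s + ((s * (1 - s) : ℝ) : ℂ) * v, by fun_prop⟩, by simp [hq0], by simp [hq1]⟩
  have hγ' : ∀ s : I, γ' s = q s + ((s * (1 - s) : ℝ) : ℂ) * v := fun s => rfl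
  refine ⟨γ', fun s hs => ?_, fun s => ?_⟩
  · rcases eq_or_lt_of_le s.2.1 with h0 | h0
    · have e : s = 0 := Subtype.ext h0.symm
      rw [e, γ'.source] at hs
      exact ha hs
    · rcases eq_or_lt_of_le s.2.2 with h1 | h1
      · have e : s = 1 := Subtype.ext h1
        rw [e, γ'.target] at hs
        exact hb hs
      · apply hvB
        refine Set.mem_iUnion₂.2 ⟨γ' s, hs, s, ⟨h0, h1⟩, ?_⟩
        have h2 : (((s : ℝ) * (1 - s) : ℝ) : ℂ) ≠ 0 := by
          have : (0 : ℝ) < s * (1 - s) := mul_pos h0 (sub_pos.2 h1)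
          exact_mod_cast this.ne'
        change (((s : ℝ) * (1 - s) : ℝ) : ℂ)⁻¹ * (γ' s - q s) = v
        rw [hγ', add_sub_cancel_left, inv_mul_cancel_left₀ h2]
  · have e : γ' s - γ s = (q s - γ s) + ((s * (1 - s) : ℝ) : ℂ) * v := by
      rw [hγ']; ring
    rw [e]
    refine (norm_add_le _ _).trans_lt ?_
    have h1 : ‖(((s : ℝ) * (1 - s) : ℝ) : ℂ) * v‖ ≤ ‖v‖ := by
      rw [norm_mul, Complex.norm_real, Real.norm_eq_abs]
      have h2 : |(s : ℝ) * (1 - s)| ≤ 1 := by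
        rw [abs_of_nonneg (mul_nonneg s.2.1 (sub_nonneg.2 s.2.2))]
        nlinarith [s.2.1, s.2.2]
      exact mul_le_of_le_one_left (norm_nonneg _) h2
    have h3 := hqγ s
    linarith

lemma tr_perturb (hA : Adm f P) (P' : Set ℂ) (hP' : P'.Finite) {a b : ℂ}
    (ha : a ∉ P') (hb : b ∉ P') (γ : Path a b) (hγ : Av P γ) :
    ∃ γ' : Path a b, Av P' γ' ∧ ∀ n z w, Tr f n γ z w ↔ Tr f n γ' z w := by
  obtain ⟨ε, hε, hd⟩ := exists_dist hA.fin γ hγ
  obtain ⟨γ', h1, h2⟩ := exists_perturb P' hP' ha hb γ hε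
  have key : ∀ r s : I, (1 - r : ℂ) * γ s + r * γ' s ∉ P := by
    intro r s hs
    have h3 := hd _ hs s
    have h4 : γ s - ((1 - r : ℂ) * γ s + r * γ' s) = -((r : ℝ) : ℂ) * (γ' s - γ s) := by ring
    rw [h4, norm_mul, norm_neg, Complex.norm_real, Real.norm_eq_abs, abs_of_nonneg r.2.1] at h3
    have h5 := h2 s
    have h6 : (r : ℝ) * ‖γ' s - γ s‖ ≤ ‖γ' s - γ s‖ :=
      mul_le_of_le_one_left (norm_nonneg _) r.2.2
    linarith
  refine ⟨γ', h1, fun n z w => ⟨fun h => tr_segment hA n γ γ' key h, fun h => ?_⟩⟩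
  refine tr_segment hA n γ' γ (fun r s => ?_) h
  have h3 := key (σ r) s
  have h4 : (1 - r : ℂ) * γ' s + r * γ s =
      (1 - ((σ r : I) : ℝ) : ℂ) * γ s + ((σ r : I) : ℝ) * γ' s := by
    rw [unitInterval.coe_symm_eq]
    push_cast
    ring
  rw [h4]
  exact h3

theorem stmt_TR : Stmt_TR := by
  intro f P hA
  refine ⟨fun n a b γ hγ z hz => tr_exists hA n γ hγ z hz,
    fun n a b γ hγ z w w' h h' => tr_unique hA hγ h h',
    fun n a b γ z w h => tr_ends h,
    fun n a z h => tr_refl h,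
    fun n a b γ z w h => tr_symm h,
    fun n a b c γ δ x y z h h' => tr_trans h h',
    fun n a b γ γ' H hH z w h => tr_homotopy hA n γ γ' H hH h,
    fun n a b γ γ' C hC hd h1 h2 z w h => tr_convex hA n γ γ' C hC hd h1 h2 h,
    fun m n a b γ z w Γ hγ hΓ => tr_iter hA m n γ Γ hγ hΓ,
    fun m n a b γ x y h => tr_down m n γ h,
    fun a b ha hb => exists_av_path hA.fin ha hb,
    fun n a ha => ⟨card_fibre hA n ha, fun z hz => hA.not_mem_of_it (n := n) (by rw [hz]; exact ha)⟩,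
    fun P' hP' _ a b ha hb γ hγ => tr_perturb hA P' hP' ha hb γ hγ⟩

end PCF
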