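import Pool.Agent.Work.MP_80ff4e_al.Interface4
import Pool.Agent.Work.MP_80ff4e_al_helper82.L

/-!
# MP_80ff4e_al: block EX

Ramification in a square `A ∘ B = C ∘ D` which is generically a fibre product.
-/

set_option autoImplicit false

open Polynomial Filter Topology

namespace PCF

namespace EXb

/-- a local coordinate in which the polynomial is a power -/
theorem coord {p : ℂ[X]} (hp : 1 ≤ p.natDegree) (u : ℂ) :
    ∃ (ψ : ℂ → ℂ) (c : ℂ), c ≠ 0 ∧ HasStrictDerivAt ψ 1 u ∧ ψ u = 0 ∧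
      ∀ z, p.eval z - p.eval u = c * ψ z ^ ldeg p u := by
  obtain ⟨H, hH1, hH2⟩ := exists_eq_pow_rootMultiplicity_mul_and_not_dvd (p - C (p.eval u))
    (LD.sub_C_ne_zero hp _) u
  change p - C (p.eval u) = (X - C u) ^ (ldeg p u) * H at hH1
  have hHu : H.eval u ≠ 0 := fun h => hH2 (dvd_iff_isRoot.2 h)
  have hl : ldeg p u ≠ 0 := by have := LD.ldeg_pos hp u; omega
  refine ⟨fun z => (z - u) * (H.eval z / H.eval u) ^ (((ldeg p u : ℕ) : ℂ)⁻¹), H.eval u, hHu, ?_,
    by simp, fun z => ?_⟩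
  · have h1 : HasStrictDerivAt (fun z => H.eval z / H.eval u)
        (H.derivative.eval u / H.eval u) u := (H.hasStrictDerivAt u).div_const _
    have h2 := h1.cpow_const (c := ((ldeg p u : ℕ) : ℂ)⁻¹) (by
      rw [div_self hHu]
      exact Complex.one_mem_slitPlane)
    have h3 : HasStrictDerivAt (fun z => z - u) 1 u := (hasStrictDerivAt_id u).sub_const u
    refine (h3.mul h2).congr_deriv ?_
    simp [div_self hHu]
  · have h1 := congrArg (eval z) hH1
    rw [eval_sub, eval_C, eval_mul, eval_pow, eval_sub, eval_X, eval_C] at h1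
    rw [h1, mul_pow, Complex.cpow_nat_inv_pow _ hl]
    field_simp

theorem coord_ne {ψ : ℂ → ℂ} {u : ℂ} (h : HasStrictDerivAt ψ 1 u) :
    ∀ᶠ z in 𝓝[≠] u, ψ z ≠ ψ u :=
  h.hasDerivAt.eventually_ne one_ne_zero

theorem coord_slope {ψ : ℂ → ℂ} {u a : ℂ} (h : HasDerivAt ψ a u) (h0 : ψ u = 0) :
    Tendsto (fun z => ψ z / (z - u)) (𝓝[≠] u) (𝓝 a) := by
  have h1 := hasDerivAt_iff_tendsto_slope.mp h
  refine h1.congr fun z => ?_
  rw [slope_def_field, h0, sub_zero]

/-- roots of unity near `1` -/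
theorem eventually_one (n : ℕ) (hn : n ≠ 0) : ∀ᶠ w : ℂ in 𝓝 1, w ^ n = 1 → w = 1 := by
  have hfin : {w : ℂ | w ^ n = 1 ∧ w ≠ 1}.Finite := by
    refine Set.Finite.subset (Polynomial.nthRoots n (1 : ℂ)).toFinset.finite_toSet ?_
    intro w hw
    simp only [Finset.mem_coe, Multiset.mem_toFinset]
    rw [mem_nthRoots (Nat.pos_of_ne_zero hn)]
    exact hw.1
  have h1 : {w : ℂ | w ^ n = 1 ∧ w ≠ 1}ᶜ ∈ 𝓝 (1 : ℂ) :=
    hfin.isClosed.isOpen_compl.mem_nhds fun h => h.2 rfl
  filter_upwards [h1] with w hw hw1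
  by_contra hne
  exact hw ⟨hw1, hne⟩

/-- common ramification gives infinitely many pairs which are not separated -/
theorem noninj_infinite {A B C' D : ℂ[X]} (h : A.comp B = C'.comp D) (hB : 1 ≤ B.natDegree)
    (hC : 1 ≤ C'.natDegree) (hD : 1 ≤ D.natDegree) (z₀ : ℂ) {k : ℕ} (hk : 2 ≤ k)
    (hkB : k ∣ ldeg B z₀) (hkD : k ∣ ldeg D z₀) : (NonInj B D).Infinite := by
  obtain ⟨ψ, cB, hcB, hψ, hψ0, hψB⟩ := coord hB z₀
  obtain ⟨θ, cD, hcD, hθ, hθ0, hθD⟩ := coord hD z₀
  obtain ⟨χ, cC, hcC, hχ, hχ0, hχC⟩ := coord hC (D.eval z₀)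
  set Q := D.eval z₀ with hQ
  set f' := ldeg D z₀ with hf'
  set f := ldeg C' Q with hf
  have hf0 : f ≠ 0 := by have := LD.ldeg_pos hC Q; omega
  have hf'0 : f' ≠ 0 := by have := LD.ldeg_pos hD z₀; omega
  -- the root of unity
  have hprim := Complex.isPrimitiveRoot_exp k (by omega)
  set ζ := Complex.exp (2 * Real.pi * Complex.I / k) with hζ
  have hζ1 : ζ ≠ 1 := hprim.ne_one (by omega)
  have hζ0 : ζ ≠ 0 := hprim.ne_zero (by omega)
  have hζB : ζ ^ ldeg B z₀ = 1 := (hprim.pow_eq_one_iff_dvd _).mpr hkB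
  have hζD : ζ ^ f' = 1 := (hprim.pow_eq_one_iff_dvd _).mpr hkD
  -- the rotation
  set g := hψ.localInverse ψ 1 z₀ one_ne_zero with hg
  set T : ℂ → ℂ := fun z => g (ζ * ψ z) with hT
  have hgψ : g (ψ z₀) = z₀ := (hψ.eventually_left_inverse one_ne_zero).self_of_nhds
  have hTz : T z₀ = z₀ := by
    rw [hT]
    simp only
    rw [hψ0, mul_zero, ← hψ0, hgψ]
  have hTd : HasStrictDerivAt T ζ z₀ := by
    have h1 := hψ.to_localInverse one_ne_zero
    have h2 : HasStrictDerivAt (fun z => ζ * ψ z) (ζ * 1) z₀ := hψ.const_mul ζ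
    have h3 : HasStrictDerivAt g (1⁻¹ : ℂ) ((fun z => ζ * ψ z) z₀) := by
      simp only
      rw [hψ0, mul_zero, ← hψ0]
      exact h1
    have h4 := h3.comp z₀ h2
    refine h4.congr_deriv ?_
    simp
  have hTc : Tendsto T (𝓝 z₀) (𝓝 z₀) := by
    have := hTd.hasDerivAt.continuousAt.tendsto
    rwa [hTz] at this
  have hTne : ∀ᶠ z in 𝓝[≠] z₀, T z ≠ z₀ := by
    have := hTd.hasDerivAt.eventually_ne (c := z₀) hζ0
    exact this
  have hTw : Tendsto T (𝓝[≠] z₀) (𝓝[≠] z₀) :=
    tendsto_nhdsWithin_iff.mpr ⟨hTc.mono_left nhdsWithin_le_nhds, hTne⟩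
  have hψT : ∀ᶠ z in 𝓝 z₀, ψ (T z) = ζ * ψ z := by
    have h1 := hψ.eventually_right_inverse one_ne_zero
    have h2 : Tendsto (fun z => ζ * ψ z) (𝓝 z₀) (𝓝 (ψ z₀)) := by
      have := (hψ.hasDerivAt.continuousAt.tendsto).const_mul ζ
      rwa [hψ0, mul_zero, ← hψ0] at this
    exact h2.eventually h1
  -- the values of `B`
  have hBT : ∀ᶠ z in 𝓝 z₀, B.eval (T z) = B.eval z := by
    filter_upwards [hψT] with z hz
    have h1 := hψB (T z)
    have h2 := hψB z
    rw [hz, mul_pow, hζB, one_mul, ← h2] at h1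
    exact sub_left_injective h1
  -- the ratio of the coordinates of the values of `D`
  have hDQ : Tendsto (fun z => D.eval z) (𝓝 z₀) (𝓝 Q) := D.continuous.tendsto z₀
  have hDne : ∀ᶠ z in 𝓝[≠] z₀, D.eval z ≠ Q := by
    filter_upwards [coord_ne hθ] with z hz hz'
    have h1 := hθD z
    rw [hz', sub_self, eq_comm, mul_eq_zero] at h1
    rcases h1 with h1 | h1
    · exact hcD h1
    · rw [hθ0] at hz
      exact hz (pow_eq_zero_iff hf'0 |>.mp h1)
  have hDw : Tendsto (fun z => D.eval z) (𝓝[≠] z₀) (𝓝[≠] Q) :=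
    tendsto_nhdsWithin_iff.mpr ⟨hDQ.mono_left nhdsWithin_le_nhds, hDne⟩
  have hE : Tendsto (fun z => χ (D.eval z) / (z - z₀) ^ f') (𝓝[≠] z₀) (𝓝 cD) := by
    have h1 := (coord_slope hχ.hasDerivAt hχ0).comp hDw
    have h2 := ((coord_slope hθ.hasDerivAt hθ0).pow f').const_mul cD
    have h3 := h1.mul h2
    rw [one_pow, mul_one, one_mul] at h3
    refine h3.congr' ?_
    filter_upwards [hDne, self_mem_nhdsWithin] with z hz hz'
    have h4 : z - z₀ ≠ 0 := sub_ne_zero.mpr hz'
    have h5 : D.eval z - Q ≠ 0 := sub_ne_zero.mpr hz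
    simp only [Function.comp_apply]
    rw [div_pow, ← mul_div_assoc, ← hθD z]
    field_simp
  have hE' : Tendsto (fun z => χ (D.eval (T z)) / (z - z₀) ^ f') (𝓝[≠] z₀) (𝓝 cD) := by
    have h1 := hE.comp hTw
    have h2 : Tendsto (fun z => (T z - z₀) / (z - z₀)) (𝓝[≠] z₀) (𝓝 ζ) := by
      have := hasDerivAt_iff_tendsto_slope.mp hTd.hasDerivAt
      refine this.congr fun z => ?_
      rw [slope_def_field, hTz]
    have h3 := h1.mul (h2.pow f')
    rw [hζD, mul_one] at h3
    refine h3.congr' ?_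
    filter_upwards [hTne, self_mem_nhdsWithin] with z hz hz'
    have h4 : z - z₀ ≠ 0 := sub_ne_zero.mpr hz'
    have h5 : T z - z₀ ≠ 0 := sub_ne_zero.mpr hz
    simp only [Function.comp_apply]
    rw [div_pow]
    field_simp
  have hratio : Tendsto (fun z => χ (D.eval (T z)) / χ (D.eval z)) (𝓝[≠] z₀) (𝓝 1) := by
    have h1 := hE'.div hE hcD
    rw [div_self hcD] at h1
    refine h1.congr' ?_
    filter_upwards [self_mem_nhdsWithin] with z hz'
    have h4 : (z - z₀) ^ f' ≠ 0 := pow_ne_zero _ (sub_ne_zero.mpr hz')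
    simp only [Pi.div_apply]
    rw [div_div_div_cancel_right₀ h4]
  have hχne : ∀ᶠ z in 𝓝[≠] z₀, χ (D.eval z) ≠ 0 := by
    have h1 := hDw.eventually (coord_ne hχ)
    filter_upwards [h1] with z hz
    rwa [hχ0] at hz
  have hpow : ∀ᶠ z in 𝓝[≠] z₀, (χ (D.eval (T z)) / χ (D.eval z)) ^ f = 1 := by
    filter_upwards [hBT.filter_mono nhdsWithin_le_nhds, hχne] with z hz hz'
    have h1 : C'.eval (D.eval (T z)) = C'.eval (D.eval z) := by
      rw [← eval_comp, ← eval_comp, ← h, eval_comp, eval_comp, hz]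
    have h2 := hχC (D.eval (T z))
    have h3 := hχC (D.eval z)
    rw [h1, h3] at h2
    rw [div_pow, div_eq_one_iff_eq (pow_ne_zero _ hz')]
    exact (mul_left_cancel₀ hcC h2).symm
  have hone : ∀ᶠ z in 𝓝[≠] z₀, χ (D.eval (T z)) = χ (D.eval z) := by
    filter_upwards [hratio.eventually (eventually_one f hf0), hpow, hχne] with z h1 h2 h3
    have h4 := h1 h2
    rwa [div_eq_one_iff_eq h3] at h4
  have hDT : ∀ᶠ z in 𝓝[≠] z₀, D.eval (T z) = D.eval z := by
    have h1 := hχ.eventually_left_inverse one_ne_zero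
    have h2 := (hDQ.eventually h1).filter_mono (nhdsWithin_le_nhds (s := {z₀}ᶜ))
    have h3 : Tendsto (fun z => D.eval (T z)) (𝓝 z₀) (𝓝 Q) := hDQ.comp hTc
    have h4 := (h3.eventually h1).filter_mono (nhdsWithin_le_nhds (s := {z₀}ᶜ))
    filter_upwards [h2, h4, hone] with z h5 h6 h7
    rw [← h5, ← h6, h7]
  have hTnez : ∀ᶠ z in 𝓝[≠] z₀, T z ≠ z := by
    filter_upwards [hψT.filter_mono nhdsWithin_le_nhds, coord_ne hψ] with z h1 h2 h3
    rw [h3] at h1
    rw [hψ0] at h2
    have h4 : (ζ - 1) * ψ z = 0 := by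
      rw [sub_mul, one_mul, ← h1, sub_self]
    rcases mul_eq_zero.mp h4 with h5 | h5
    · exact hζ1 (sub_eq_zero.mp h5)
    · exact h2 h5
  have hmem : ∀ᶠ z in 𝓝[≠] z₀, z ∈ NonInj B D := by
    filter_upwards [hTnez, hDT, hBT.filter_mono nhdsWithin_le_nhds] with z h1 h2 h3
    exact ⟨T z, h1, h3.symm, h2.symm⟩
  have hins : insert z₀ (NonInj B D) ∈ 𝓝 z₀ := insert_mem_nhds_iff.mpr hmem
  intro hfin
  exact (infinite_of_mem_nhds z₀ hins) (hfin.insert z₀)

theorem first {A B C' D : ℂ[X]} (h : A.comp B = C'.comp D) (hA : 1 ≤ A.natDegree)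
    (hB : 1 ≤ B.natDegree) (hC : 1 ≤ C'.natDegree) (hD : 1 ≤ D.natDegree)
    (hfin : (NonInj B D).Finite) (z : ℂ) :
    ldeg (A.comp B) z = Nat.lcm (ldeg A (B.eval z)) (ldeg C' (D.eval z)) := by
  set e := ldeg A (B.eval z) with he
  set f := ldeg C' (D.eval z) with hf
  have h1 : ldeg (A.comp B) z = e * ldeg B z := LD.ldeg_comp hA hB z
  have h2 : ldeg (A.comp B) z = f * ldeg D z := by rw [h]; exact LD.ldeg_comp hC hD z
  have he0 := LD.ldeg_pos hA (B.eval z)
  have hf0 := LD.ldeg_pos hC (D.eval z)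
  rw [← he] at he0
  rw [← hf] at hf0
  obtain ⟨m, hm⟩ : Nat.lcm e f ∣ ldeg (A.comp B) z :=
    Nat.lcm_dvd ⟨_, h1⟩ ⟨_, h2⟩
  obtain ⟨a, ha⟩ := Nat.dvd_lcm_left e f
  obtain ⟨b, hb⟩ := Nat.dvd_lcm_right e f
  have h3 : ldeg B z = a * m := by
    have : e * ldeg B z = e * (a * m) := by rw [← h1, hm, ha]; ring
    exact Nat.eq_of_mul_eq_mul_left he0 this
  have h4 : ldeg D z = b * m := by
    have : f * ldeg D z = f * (b * m) := by rw [← h2, hm, hb]; ring
    exact Nat.eq_of_mul_eq_mul_left hf0 this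
  have hm1 : m = 1 := by
    by_contra hne
    have hm0 : m ≠ 0 := by
      rintro rfl
      have := LD.ldeg_pos hB z
      omega
    exact noninj_infinite h hB hC hD z (k := m) (by omega) ⟨a, by rw [h3, mul_comm]⟩
      ⟨b, by rw [h4, mul_comm]⟩ hfin
  rw [hm, hm1, mul_one]

/-! ### the second clause -/

/-- the product over the fibre of `B` -/
noncomputable def prodF (B D : ℂ[X]) (u v : ℂ) : ℂ :=
  ((B - C u).roots.map fun z => v - D.eval z).prod

theorem eval_prod {p : ℂ[X]} (x : ℂ) :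
    p.eval x = p.leadingCoeff * (p.roots.map fun r => x - r).prod := by
  conv_lhs => rw [(IsAlgClosed.splits p).eq_prod_roots]
  rw [eval_mul, eval_C, eval_multiset_prod, Multiset.map_map]
  simp

theorem card_roots_sub {p : ℂ[X]} (u : ℂ) : (p - C u).roots.card = p.natDegree := by
  rw [IsAlgClosed.card_roots_eq_natDegree, natDegree_sub_C]

theorem leadingCoeff_sub_C' {p : ℂ[X]} (hp : 1 ≤ p.natDegree) (u : ℂ) :
    (p - C u).leadingCoeff = p.leadingCoeff := by
  rw [leadingCoeff, natDegree_sub_C, coeff_sub, coeff_C_of_ne_zero (by omega), sub_zero, leadingCoeff]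

/-- the product over the fibre of `B` is a polynomial in the point `u` -/
theorem prodF_eq {B D : ℂ[X]} (hB : 1 ≤ B.natDegree) (hD : 1 ≤ D.natDegree) (u v : ℂ) :
    prodF B D u v = (-D.leadingCoeff) ^ B.natDegree *
      ((D - C v).roots.map fun w =>
        (-1) ^ B.natDegree * ((B.eval w - u) / B.leadingCoeff)).prod := by
  have h1 : ∀ z, v - D.eval z = (-D.leadingCoeff) * ((D - C v).roots.map fun w => z - w).prod := by
    intro z
    have := eval_prod (p := D - C v) z
    rw [eval_sub, eval_C, leadingCoeff_sub_C' hD] at this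
    rw [neg_mul, ← this]
    ring
  have h2 : ∀ w, (-1) ^ B.natDegree * ((B.eval w - u) / B.leadingCoeff) =
      ((B - C u).roots.map fun z => z - w).prod := by
    intro w
    have h3 := eval_prod (p := B - C u) w
    rw [eval_sub, eval_C, leadingCoeff_sub_C' hB] at h3
    have hlc : B.leadingCoeff ≠ 0 := leadingCoeff_ne_zero.mpr (by rintro rfl; simp at hB)
    have h5 : ∀ z ∈ (B - C u).roots, z - w = (-1) * (w - z) := fun z _ => by ring
    rw [h3, mul_div_cancel_left₀ _ hlc, Multiset.map_congr rfl h5, Multiset.prod_map_mul,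
      Multiset.map_const', Multiset.prod_replicate, card_roots_sub]
  unfold prodF
  rw [Multiset.map_congr rfl fun z _ => h1 z, Multiset.map_congr rfl fun w _ => h2 w,
    Multiset.prod_map_mul, Multiset.map_const', Multiset.prod_replicate, card_roots_sub]
  congr 1
  exact Multiset.prod_map_prod_map _ _

/-- the product over the fibre of `B` as a polynomial in the point `u` -/
noncomputable def gpoly (B D : ℂ[X]) (v : ℂ) : ℂ[X] :=
  C ((-D.leadingCoeff) ^ B.natDegree) * ((D - C v).roots.map fun w =>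
    C ((-1) ^ B.natDegree / B.leadingCoeff) * (C (B.eval w) - X)).prod

theorem eval_gpoly {B D : ℂ[X]} (hB : 1 ≤ B.natDegree) (hD : 1 ≤ D.natDegree) (u v : ℂ) :
    (gpoly B D v).eval u = prodF B D u v := by
  rw [prodF_eq hB hD]
  unfold gpoly
  rw [eval_mul, eval_C, eval_multiset_prod, Multiset.map_map]
  congr 2
  refine Multiset.map_congr rfl fun w _ => ?_
  simp only [Function.comp_apply, eval_mul, eval_C, eval_sub, eval_X]
  ring

/-- generic fibres -/
theorem generic {A B C' D : ℂ[X]} (h : A.comp B = C'.comp D) (hB : 1 ≤ B.natDegree)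
    (hC : 1 ≤ C'.natDegree) (hBC : B.natDegree = C'.natDegree) {u : ℂ}
    (hcrit : ∀ z, B.eval z = u → B.derivative.eval z ≠ 0)
    (hinj : ∀ z z', B.eval z = u → B.eval z' = u → D.eval z = D.eval z' → z = z') (v : ℂ) :
    C'.eval v - A.eval u = C'.leadingCoeff * prodF B D u v := by
  have hB0 := LD.sub_C_ne_zero hB u
  have hC0 := LD.sub_C_ne_zero hC (A.eval u)
  have hmem : ∀ z, z ∈ (B - C u).roots ↔ B.eval z = u := by
    intro z
    rw [mem_roots hB0, IsRoot.def, eval_sub, eval_C, sub_eq_zero]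
  have hnodup : (B - C u).roots.Nodup := by
    rw [Multiset.nodup_iff_count_le_one]
    intro z
    rw [count_roots]
    by_contra hlt
    push Not at hlt
    have h1 := (one_lt_rootMultiplicity_iff_isRoot hB0).mp hlt
    have h2 : B.eval z = u := by
      have := h1.1
      rwa [IsRoot.def, eval_sub, eval_C, sub_eq_zero] at this
    have h3 := h1.2
    rw [derivative_sub, derivative_C, sub_zero, IsRoot.def] at h3
    exact hcrit z h2 h3
  set M := (B - C u).roots.map fun z => D.eval z with hM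
  have hMnodup : M.Nodup := by
    rw [hM]
    refine Multiset.Nodup.map_on (fun z hz z' hz' hzz => ?_) hnodup
    exact hinj z z' ((hmem z).mp hz) ((hmem z').mp hz') hzz
  have hMsub : M ⊆ (C' - C (A.eval u)).roots := by
    intro y hy
    rw [hM, Multiset.mem_map] at hy
    obtain ⟨z, hz, rfl⟩ := hy
    rw [mem_roots hC0, IsRoot.def, eval_sub, eval_C, sub_eq_zero, ← eval_comp, ← h, eval_comp,
      (hmem z).mp hz]
  have hMle : M ≤ (C' - C (A.eval u)).roots := (Multiset.le_iff_subset hMnodup).mpr hMsub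
  have hMeq : M = (C' - C (A.eval u)).roots := by
    refine Multiset.eq_of_le_of_card_le hMle ?_
    rw [card_roots_sub, hM, Multiset.card_map, card_roots_sub, hBC]
  have h1 := eval_prod (p := C' - C (A.eval u)) v
  rw [eval_sub, eval_C, leadingCoeff_sub_C' hC, ← hMeq, hM, Multiset.map_map] at h1
  exact h1

theorem all {A B C' D : ℂ[X]} (h : A.comp B = C'.comp D) (hB : 1 ≤ B.natDegree)
    (hC : 1 ≤ C'.natDegree) (hD : 1 ≤ D.natDegree) (hBC : B.natDegree = C'.natDegree)
    (hfin : (NonInj B D).Finite) (u v : ℂ) :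
    C'.eval v - A.eval u = C'.leadingCoeff * prodF B D u v := by
  classical
  have hder : B.derivative ≠ 0 := by
    intro h0
    have := derivative_eq_zero.mp h0
    omega
  set bad : Set ℂ := (fun z => B.eval z) '' ({z | B.derivative.eval z = 0} ∪ NonInj B D) with hbad
  have hbadfin : bad.Finite := by
    refine Set.Finite.image _ (Set.Finite.union ?_ hfin)
    refine Set.Finite.subset B.derivative.roots.toFinset.finite_toSet fun z hz => ?_
    simp only [Finset.mem_coe, Multiset.mem_toFinset]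
    rw [mem_roots hder]
    exact hz
  have hgood : ∀ u ∉ bad, C'.eval v - A.eval u = C'.leadingCoeff * prodF B D u v := by
    intro u hu
    refine generic h hB hC hBC (fun z hz hz' => hu ⟨z, Or.inl hz', hz⟩) (fun z z' hz hz' hzz => ?_) v
    by_contra hne
    exact hu ⟨z, Or.inr ⟨z', fun h => hne h.symm, by rw [hz, hz'], hzz⟩, hz⟩
  have hpoly : C (C'.eval v) - A - C C'.leadingCoeff * gpoly B D v = 0 := by
    refine eq_zero_of_infinite_isRoot _ ?_
    refine Set.Infinite.mono (fun u hu => ?_) hbadfin.infinite_compl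
    change IsRoot _ u
    rw [IsRoot.def, eval_sub, eval_sub, eval_C, eval_mul, eval_C, eval_gpoly hB hD, hgood u hu,
      sub_self]
  have h1 := congrArg (eval u) hpoly
  rw [eval_sub, eval_sub, eval_C, eval_mul, eval_C, eval_gpoly hB hD, eval_zero, sub_eq_zero] at h1
  exact h1

open Classical in
theorem second {A B C' D : ℂ[X]} (h : A.comp B = C'.comp D) (hB : 1 ≤ B.natDegree)
    (hC : 1 ≤ C'.natDegree) (hD : 1 ≤ D.natDegree) (hBC : B.natDegree = C'.natDegree)
    (hfin : (NonInj B D).Finite) (P Q : ℂ) (hPQ : A.eval P = C'.eval Q) :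
    ∑ z ∈ (fibre B P).filter (fun z => D.eval z = Q), ldeg B z = ldeg C' Q := by
  have hpoly : C' - C (C'.eval Q) = C C'.leadingCoeff *
      ((B - C P).roots.map fun z => X - C (D.eval z)).prod := by
    refine Polynomial.funext fun v => ?_
    rw [eval_sub, eval_C, ← hPQ, all h hB hC hD hBC hfin P v, eval_mul, eval_C, eval_multiset_prod,
      Multiset.map_map]
    unfold prodF
    congr 2
    refine Multiset.map_congr rfl fun z _ => ?_
    simp
  have hlc : C'.leadingCoeff ≠ 0 := leadingCoeff_ne_zero.mpr (by rintro rfl; simp at hC)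
  have hroots : (C' - C (C'.eval Q)).roots = (B - C P).roots.map fun z => D.eval z := by
    rw [hpoly, roots_C_mul _ hlc]
    have h2 : ((B - C P).roots.map fun z => X - C (D.eval z)) =
        (((B - C P).roots.map fun z => D.eval z).map fun a => X - C a) := by
      rw [Multiset.map_map]
      rfl
    rw [h2, roots_multiset_prod_X_sub_C]
  have hl : ldeg C' Q = (C' - C (C'.eval Q)).roots.count Q := by
    unfold ldeg
    rw [count_roots]
  rw [hl, hroots, Multiset.count_map]
  set F := (B - C P).roots.filter fun z => Q = D.eval z with hF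
  have hset : (fibre B P).filter (fun z => D.eval z = Q) = F.toFinset := by
    ext z
    rw [Finset.mem_filter, Multiset.mem_toFinset, hF, Multiset.mem_filter]
    unfold fibre
    rw [Multiset.mem_toFinset, eq_comm (a := Q)]
  rw [hset, ← Multiset.toFinset_sum_count_eq F]
  refine Finset.sum_congr rfl fun z hz => ?_
  rw [Multiset.mem_toFinset, hF, Multiset.mem_filter] at hz
  have hzP : B.eval z = P := by
    have := hz.1
    rwa [mem_roots (LD.sub_C_ne_zero hB P), IsRoot.def, eval_sub, eval_C, sub_eq_zero] at this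
  have hcount : Multiset.count z F = Multiset.count z (B - C P).roots := by
    rw [hF]
    exact Multiset.count_filter_of_pos (p := fun z => Q = D.eval z) hz.2
  rw [hcount, count_roots]
  unfold ldeg
  rw [hzP]

end EXb

/-- BLOCK EX -/
theorem stmt_EX : Stmt_EX := by
  intro A B C' D h hA hB hAD hBC hfin
  have hD : 1 ≤ D.natDegree := by omega
  have hC : 1 ≤ C'.natDegree := by omega
  exact ⟨fun z => EXb.first h hA hB hC hD hfin z,
    fun P Q hPQ => EXb.second h hB hC hD hBC hfin P Q hPQ⟩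

end PCF
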