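import Pool.Agent.Work.MP_80ff4e_al_91.Common
import Pool.Agent.Work.MP_80ff4e_al.Interface2
import Pool.Agent.Work.MP_80ff4e_al_helper52.C0a
import Pool.Agent.Work.MP_80ff4e_al_helper82.D1
import Pool.Agent.Work.MP_80ff4e_al_helper39.V

/-!
Block C11, part 1: decompositions of virtual homomorphisms.
-/

set_option autoImplicit false
set_option linter.unusedSectionVars false

namespace PCF

open SelfSim

variable {G X : Type} [Group G] [Fintype X] {S : SelfSim G X}

/-- Kill the sections at the words in `T`. -/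
lemma kill (M : Subgroup G) (n : ℕ) (T : Finset (List X)) {a : G} (ha : a ∈ S.LSt n)
    (h : ∀ v ∈ T, v.length = n → ∃ k ∈ M, S.IsAt k v (S.wsec a v)) :
    ∃ a' ∈ S.LSt n, a⁻¹ * a' ∈ M ∧ (∀ v, v.length = n → v ∈ T → S.wsec a' v = 1) ∧
      ∀ v, v.length = n → v ∉ T → S.wsec a' v = S.wsec a v := by
  classical
  induction T using Finset.induction_on with
  | empty => exact ⟨a, ha, by simp [M.one_mem], by simp, by simp⟩
  | insert w T hw ih =>
    obtain ⟨b, hb, hab, h1, h2⟩ := ih fun v hv => h v (Finset.mem_insert_of_mem hv)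
    by_cases hwn : w.length = n
    · obtain ⟨k, hkM, hk⟩ := h w (Finset.mem_insert_self _ _) hwn
      have hki := hk.inv
      have hkL : k⁻¹ ∈ S.LSt n := by rw [← hwn]; exact hki.1
      have hsec : ∀ v, v.length = n → S.wsec (b * k⁻¹) v = S.wsec b v * S.wsec k⁻¹ v :=
        fun v hv => S.wsec_mul_of_LSt hkL hv
      refine ⟨b * k⁻¹, (S.LSt n).mul_mem hb hkL, ?_, fun v hv hvT => ?_, fun v hv hvT => ?_⟩
      · rw [← mul_assoc]
        exact M.mul_mem hab (M.inv_mem hkM)
      · rw [hsec v hv]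
        by_cases hvw : v = w
        · subst hvw
          rw [hki.2.1, h2 v hv hw, mul_inv_cancel]
        · rw [hki.2.2 v (hv.trans hwn.symm) hvw, mul_one]
          exact h1 v hv ((Finset.mem_insert.1 hvT).resolve_left hvw)
      · have hvw : v ≠ w := fun e => hvT (by rw [e]; exact Finset.mem_insert_self _ _)
        rw [hsec v hv, hki.2.2 v (hv.trans hwn.symm) hvw, mul_one]
        exact h2 v hv fun hv' => hvT (Finset.mem_insert_of_mem hv')
    · refine ⟨b, hb, hab, fun v hv hvT => ?_, fun v hv hvT => ?_⟩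
      · exact h1 v hv ((Finset.mem_insert.1 hvT).resolve_left fun e => hwn (by rw [← e]; exact hv))
      · exact h2 v hv fun hv' => hvT (Finset.mem_insert_of_mem hv')

/-- An element of the level stabiliser whose sections can be moved into `M` lies in `M`. -/
lemma mem_of_isAt (hC : Core S) (M : Subgroup G) (n : ℕ) {a : G} (ha : a ∈ S.LSt n)
    (h : ∀ v, v.length = n → ∃ k ∈ M, S.IsAt k v (S.wsec a v)) : a ∈ M := by
  have := hC.nonempty
  obtain ⟨a', ha', h1, h2, -⟩ := kill M n (lev X n) ha fun v _ hv => h v hv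
  have h3 : a' = 1 := hC.faithful.eq_one ha' fun v hv => h2 v hv (mem_lev.2 hv)
  rw [h3, mul_one] at h1
  simpa using M.inv_mem h1

/-- Powers of an element of the level stabiliser. -/
lemma wsec_pow39 {n : ℕ} {a : G} (ha : a ∈ S.LSt n) {v : List X} (hv : v.length = n) (k : ℕ) :
    S.wsec (a ^ k) v = S.wsec a v ^ k := by
  induction k with
  | zero => simp
  | succ k ih => rw [pow_succ, S.wsec_mul_of_LSt ha hv, ih, pow_succ]

lemma isVHom_zero39 : IsVHom (fun _ : G => (0 : ℚ)) :=
  ⟨fun g n => by simp, ⊤, inferInstance, inferInstance, fun a _ b _ => by simp⟩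

lemma isVHom_sum39 {ι : Type} (s : Finset ι) (φ : ι → G → ℚ) (h : ∀ i ∈ s, IsVHom (φ i)) :
    IsVHom (fun g => ∑ i ∈ s, φ i g) := by
  classical
  induction s using Finset.induction_on with
  | empty => simpa using isVHom_zero39
  | insert i s hi ih =>
    have h1 : (fun g => ∑ j ∈ insert i s, φ j g) = fun g => φ i g + ∑ j ∈ s, φ j g := by
      funext g
      rw [Finset.sum_insert hi]
    rw [h1]
    exact isVHom_add _ _ (h i (Finset.mem_insert_self _ _))
      (ih fun j hj => h j (Finset.mem_insert_of_mem hj))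

/-- A virtual homomorphism killing `N 1` decomposes on every level. -/
lemma exists_decomp (hC : Core S) (hC10 : Stmt_C10) {φ : G → ℚ} (hφ : IsVHom φ)
    (h1 : ∀ h ∈ S.N 1, φ h = 0) (n : ℕ) : ∃ c : List X → G → ℚ, (∀ v, IsVHom (c v)) ∧
      ∀ h ∈ S.LSt n, φ h = ∑ v ∈ lev X n, c v (S.wsec h v) := by
  classical
  have hX := hC.nonempty
  obtain ⟨J, hJ, hJf, hJN⟩ := hC10 G X S hC (n + 1)
  obtain ⟨hφ1, J₀, hJ₀, hJ₀f, hφ2⟩ := hφ
  let S' : Subgroup G := J₀ ⊓ S.secIn n J
  have hS'f : S'.FiniteIndex := by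
    have := S.secIn_finiteIndex n hJf
    infer_instance
  have hS'L : ∀ a ∈ S', a ∈ S.LSt n := fun a ha => ha.2.1
  have hS'J : ∀ a ∈ S', ∀ v : List X, v.length = n → S.wsec a v ∈ J := fun a ha => ha.2.2
  -- the abelianisation of `J`
  let A := Additive (Abelianization J)
  let of : J → A := fun g => Additive.ofMul (Abelianization.of g)
  have hof_mul : ∀ g g' : J, of (g * g') = of g + of g' := fun g g' => by
    change Additive.ofMul (Abelianization.of (g * g')) = _
    rw [map_mul]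
    rfl
  have hof_one : of 1 = 0 := by
    change Additive.ofMul (Abelianization.of (1 : J)) = _
    rw [map_one]
    rfl
  have hof_eq : ∀ g : J, of g = 0 → (g : G) ∈ S.N (n + 1) := by
    intro g hg
    have h2 : g ∈ commutator J := by
      have h3 : Abelianization.of g = 1 := hg
      rwa [← MonoidHom.mem_ker, Abelianization.ker_of] at h3
    apply hJN
    change (g : G) ∈ ⁅J, J⁆
    have h4 : (commutator J).map J.subtype = ⁅J, J⁆ := by
      rw [commutator_def, Subgroup.map_commutator, ← MonoidHom.range_eq_map, Subgroup.range_subtype]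
    rw [← h4]
    exact ⟨g, h2, rfl⟩
  let _ : Fintype {v : List X // v.length = n} := inferInstanceAs (Fintype (List.Vector X n))
  let W := {v : List X // v.length = n} → A
  have hker : ∀ a ∈ S', (∀ v : {v : List X // v.length = n},
      ∃ g : J, (g : G) = S.wsec a v ∧ of g = 0) → φ a = 0 := by
    intro a ha h2
    apply h1
    refine mem_of_isAt hC (S.N 1) n (hS'L a ha) fun v hv => ?_
    obtain ⟨g, hg, hg0⟩ := h2 ⟨v, hv⟩
    have h3 : S.wsec a v ∈ S.N (n + 1) := by
      rw [← hg]; exact hof_eq g hg0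
    rw [mem_N_add hC.faithful] at h3
    obtain ⟨k, hk⟩ := h3.1 v hv
    exact ⟨k, h3.2 v k hv hk, hk⟩
  -- the map to `W`
  let Φ : S' → W := fun a v => of ⟨S.wsec a v, hS'J a a.2 v v.2⟩
  have hΦ_mul : ∀ a b : S', Φ (a * b) = Φ a + Φ b := by
    intro a b
    funext v
    change of _ = of _ + of _
    rw [← hof_mul]
    congr 1
    exact Subtype.ext (S.wsec_mul_of_LSt (hS'L b b.2) v.2)
  have hΦ_one : Φ 1 = 0 := by
    funext v
    change of _ = 0
    rw [← hof_one]
    congr 1
    exact Subtype.ext (by simp)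
  have hΦ_inv : ∀ a : S', Φ a⁻¹ = - Φ a := by
    intro a
    have := hΦ_mul a⁻¹ a
    rw [inv_mul_cancel, hΦ_one] at this
    exact eq_neg_of_add_eq_zero_left this.symm
  have hφS : ∀ a b : S', φ (a * b : S') = φ a + φ b := fun a b => hφ2 a a.2.1 b b.2.1
  have hφ_eq : ∀ a b : S', Φ a = Φ b → φ a = φ b := by
    intro a b hab
    have h2 : Φ (a⁻¹ * b) = 0 := by rw [hΦ_mul, hΦ_inv, hab, neg_add_cancel]
    have h3 : φ (a⁻¹ * b : S') = 0 := by
      refine hker _ (a⁻¹ * b).2 fun v => ⟨⟨_, hS'J _ (a⁻¹ * b).2 v v.2⟩, rfl, congrFun h2 v⟩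
    have h4 := hφS a (a⁻¹ * b)
    rw [mul_inv_cancel_left, h3, add_zero] at h4
    exact h4.symm
  let B : AddSubgroup W :=
    { carrier := Set.range Φ
      zero_mem' := ⟨1, hΦ_one⟩
      add_mem' := by
        rintro _ _ ⟨a, rfl⟩ ⟨b, rfl⟩
        exact ⟨a * b, hΦ_mul a b⟩
      neg_mem' := by
        rintro _ ⟨a, rfl⟩
        exact ⟨a⁻¹, hΦ_inv a⟩ }
  let r : B → S' := fun b => b.2.choose
  have hr : ∀ b : B, Φ (r b) = b := fun b => b.2.choose_spec
  let φ' : B →+ ℚ :=
    { toFun := fun b => φ (r b)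
      map_zero' := by
        have h2 : φ (r 0) = φ (1 : S') := hφ_eq _ _ (by rw [hr, hΦ_one]; rfl)
        rw [h2]
        have h3 := hφS 1 1
        rw [mul_one] at h3
        linarith
      map_add' := fun b b' => by
        rw [← hφS]
        exact hφ_eq _ _ (by rw [hr, hΦ_mul, hr, hr]; rfl) }
  obtain ⟨ψ, hψ⟩ := stmt_D4 W B φ'
  have hψΦ : ∀ a : S', ψ (Φ a) = φ a := by
    intro a
    have h2 := hψ ⟨Φ a, a, rfl⟩
    rw [h2]
    exact hφ_eq _ _ (hr _)
  -- the components
  have hex : ∀ v : List X, ∃ c : G → ℚ, IsVHom c ∧ ∀ hv : v.length = n, ∀ g : J,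
      c g = ψ (Pi.single ⟨v, hv⟩ (of g)) := by
    intro v
    by_cases hv : v.length = n
    · obtain ⟨c, hc, hc'⟩ := isVHom_extend J hJf
        (fun g => if hg : g ∈ J then ψ (Pi.single ⟨v, hv⟩ (of ⟨g, hg⟩)) else 0) (by
          intro a ha b hb
          rw [dif_pos ha, dif_pos hb, dif_pos (J.mul_mem ha hb), ← map_add, ← Pi.single_add,
            ← hof_mul]
          rfl)
      refine ⟨c, hc, fun _ g => ?_⟩
      rw [hc' g g.2, dif_pos g.2]
    · exact ⟨fun _ => 0, isVHom_zero39, fun h => absurd h hv⟩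
  choose c hc hc' using hex
  refine ⟨c, hc, fun h hh => ?_⟩
  -- first on `S'`
  have hS'eq : ∀ a : S', φ a = ∑ v ∈ lev X n, c v (S.wsec a v) := by
    intro a
    rw [← hψΦ]
    rw [← Finset.univ_sum_single (Φ a), map_sum]
    have h3 : ∑ v ∈ lev X n, c v (S.wsec a v) =
        ∑ v : {v : List X // v.length = n}, c v.1 (S.wsec a v.1) := by
      rw [← Finset.sum_subtype (lev X n) (p := fun v => v.length = n) (fun v => mem_lev)
        (fun v => c v (S.wsec a v))]
    rw [h3]
    refine Finset.sum_congr rfl fun v _ => ?_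
    exact (hc' v.1 v.2 ⟨S.wsec a v, hS'J a a.2 v v.2⟩).symm
  obtain ⟨k, hk, hkS⟩ := exists_pow_mem_fi S' hS'f
  have h5 := hS'eq ⟨h ^ k, hkS h⟩
  change φ (h ^ k) = ∑ v ∈ lev X n, c v (S.wsec (h ^ k) v) at h5
  rw [hφ1] at h5
  have h6 : ∀ v ∈ lev X n, c v (S.wsec (h ^ k) v) = k * c v (S.wsec h v) := by
    intro v hv
    rw [wsec_pow39 hh (mem_lev.1 hv), (hc v).1]
  rw [Finset.sum_congr rfl h6, ← Finset.mul_sum] at h5
  exact mul_left_cancel₀ (Nat.cast_ne_zero.2 hk.ne') h5

end PCF
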