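import Pool.Agent.Work.MP_80ff4e_al_helper39.C11a

/-!
Block C11, part 2: averaging, and the vanishing of the relations.
-/

set_option autoImplicit false
set_option linter.unusedSectionVars false

namespace PCF

open SelfSim

variable {G X : Type} [Group G] [Fintype X] {S : SelfSim G X}

/-- Sums over a finite quotient group are invariant under translations. -/
lemma sum_quot {L : Type} [Group L] (L' : Subgroup L) [L'.Normal] [Fintype (L ⧸ L')] (F : L → ℚ)
    (hF : ∀ g, ∀ l ∈ L', F (g * l) = F g) (l : L) :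
    ∑ q : L ⧸ L', F (q.out * l) = ∑ q : L ⧸ L', F q.out := by
  let F' : L ⧸ L' → ℚ := fun q => F q.out
  have h1 : ∀ g : L, F' (QuotientGroup.mk g) = F g := by
    intro g
    obtain ⟨l', hl'⟩ := QuotientGroup.mk_out_eq_mul L' g
    change F _ = _
    rw [hl', hF g l' l'.2]
  have h2 : ∀ q : L ⧸ L', F (q.out * l) = F' (q * QuotientGroup.mk l) := by
    intro q
    rw [← h1 (q.out * l), QuotientGroup.mk_mul, QuotientGroup.out_eq']
  simp only [h2]
  exact Equiv.sum_comp (Equiv.mulRight (QuotientGroup.mk l : L ⧸ L')) F'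

lemma secIn_normal (n : ℕ) {M : Subgroup G} (hM : M.Normal) : (S.secIn n M).Normal := by
  constructor
  rintro a ⟨ha, ha'⟩ g
  refine ⟨(S.LSt_normal n).conj_mem a ha g, fun w hw => ?_⟩
  obtain ⟨u, rfl⟩ : ∃ u, S.wact g u = w := ⟨S.wact g⁻¹ w, by simp⟩
  have hu : u.length = n := by simpa using hw
  rw [S.wsec_conj, ha u hu]
  exact hM.conj_mem _ (ha' u hu) _

lemma exists_inv_subgroup {ι : Type} [Finite ι] (c : ι → G → ℚ) (hc : ∀ i, IsVHom (c i)) :
    ∃ M : Subgroup G, M.Normal ∧ M.FiniteIndex ∧ ∀ i, ∀ g ∈ M, ∀ x, c i (g⁻¹ * x * g) = c i x := by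
  choose J hJ hJf hJc using fun i => isVHom_conj_eq (c i) (hc i)
  refine ⟨⨅ i, J i, Subgroup.normal_iInf_normal hJ, Subgroup.finiteIndex_iInf hJf,
    fun i g hg x => hJc i g ((Subgroup.mem_iInf.1 hg) i) x⟩

/-- Averaging makes the components of a decomposition homomorphisms. -/
lemma exists_avg {φ : G → ℚ} (n : ℕ) (L : Subgroup G)
    (hLφ : ∀ g ∈ L, ∀ h, φ (g⁻¹ * h * g) = φ h)
    (hLn : ∀ v : List X, v.length = n → S.secSub L v = ⊤) (c : List X → G → ℚ)
    (hc : ∀ v, IsVHom (c v))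
    (hdec : ∀ h ∈ S.LSt n, φ h = ∑ v ∈ lev X n, c v (S.wsec h v)) :
    ∃ c' : List X → G → ℚ, (∀ v a b, c' v (a * b) = c' v a + c' v b) ∧
      ∀ h ∈ S.LSt n, φ h = ∑ v ∈ lev X n, c' v (S.wsec h v) := by
  classical
  obtain ⟨M, hM, hMf, hMc⟩ := exists_inv_subgroup (fun v : {v : List X // v.length = n} => c v.1)
    (fun v => hc v.1)
  have hMc' : ∀ v : List X, v.length = n → ∀ g ∈ M, ∀ x, c v (g * x * g⁻¹) = c v x := by
    intro v hv g hg x
    have := hMc ⟨v, hv⟩ g⁻¹ (M.inv_mem hg) x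
    rwa [inv_inv] at this
  have hsn := secIn_normal (S := S) n hM
  have hsf := S.secIn_finiteIndex n hMf
  let L' : Subgroup L := (S.secIn n M).subgroupOf L
  have hL'n : L'.Normal := Subgroup.normal_subgroupOf
  have hL'f : L'.FiniteIndex := Subgroup.instFiniteIndex_subgroupOf _ _
  let _ : Fintype (L ⧸ L') := Fintype.ofFinite _
  -- the averaged function
  let F : List X → G → L → ℚ := fun v h g =>
    c (S.wact g v) (S.wsec g v * h * (S.wsec g v)⁻¹)
  have hF : ∀ v : List X, v.length = n → ∀ h, ∀ g : L, ∀ l ∈ L', F v h (g * l) = F v h g := by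
    intro v hv h g l hl
    have hl1 : (l : G) ∈ S.LSt n := hl.1
    have hl2 : S.wsec (l : G) v ∈ M := hl.2 v hv
    change c (S.wact ((g : G) * l) v) (S.wsec ((g : G) * l) v * h * (S.wsec ((g : G) * l) v)⁻¹) =
      c (S.wact g v) (S.wsec g v * h * (S.wsec g v)⁻¹)
    rw [S.wact_mul, hl1 v hv, S.wsec_mul_of_LSt hl1 hv]
    have h3 := hMc' (S.wact g v) (by simpa using hv) _ (hM.conj_mem _ hl2 (S.wsec (g : G) v))
      (S.wsec (g : G) v * h * (S.wsec (g : G) v)⁻¹)
    rw [← h3]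
    congr 1
    group
  have hcard : (Fintype.card (L ⧸ L') : ℚ) ≠ 0 := Nat.cast_ne_zero.2 Fintype.card_ne_zero
  let c₁ : List X → G → ℚ := fun v h => (Fintype.card (L ⧸ L') : ℚ)⁻¹ * ∑ q : L ⧸ L', F v h q.out
  have hc₁V : ∀ v, IsVHom (c₁ v) := by
    intro v
    apply isVHom_smul
    apply isVHom_sum39
    intro q _
    have h1 := isVHom_conj (c (S.wact (q.out : G) v)) (hc _) (S.wsec (q.out : G) v)⁻¹
    rw [inv_inv] at h1
    exact h1
  have hc₁inv : ∀ v : List X, v.length = n → ∀ r h : G, c₁ v (r⁻¹ * h * r) = c₁ v h := by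
    intro v hv r h
    have h1 : r⁻¹ ∈ S.secSub L v := by rw [hLn v hv]; trivial
    obtain ⟨l, hl, hlv, hlr⟩ := S.mem_secSub.1 h1
    have h2 := sum_quot L' (F v h) (hF v hv h) ⟨l, hl⟩
    change (Fintype.card (L ⧸ L') : ℚ)⁻¹ * ∑ q : L ⧸ L', F v (r⁻¹ * h * r) q.out =
      (Fintype.card (L ⧸ L') : ℚ)⁻¹ * ∑ q : L ⧸ L', F v h q.out
    rw [← h2]
    congr 1
    refine Finset.sum_congr rfl fun q _ => ?_
    change c (S.wact (q.out : G) v) (S.wsec (q.out : G) v * (r⁻¹ * h * r) *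
        (S.wsec (q.out : G) v)⁻¹) =
      c (S.wact ((q.out : G) * l) v) (S.wsec ((q.out : G) * l) v * h *
        (S.wsec ((q.out : G) * l) v)⁻¹)
    rw [S.wact_mul, hlv, S.wsec_mul, hlv, hlr]
    congr 1
    group
  refine ⟨fun v h => if v.length = n then c₁ v h else 0, fun v a b => ?_, fun h hh => ?_⟩
  · dsimp only
    split_ifs with hv
    · exact isVHom_inv _ (hc₁V v) (fun g x => hc₁inv v hv g x) a b
    · simp
  · have h1 : ∑ v ∈ lev X n, (if v.length = n then c₁ v (S.wsec h v) else 0) =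
        ∑ v ∈ lev X n, c₁ v (S.wsec h v) :=
      Finset.sum_congr rfl fun v hv => if_pos (mem_lev.1 hv)
    rw [h1]
    change _ = ∑ v ∈ lev X n, (Fintype.card (L ⧸ L') : ℚ)⁻¹ *
      ∑ q : L ⧸ L', F v (S.wsec h v) q.out
    rw [← Finset.mul_sum, Finset.sum_comm]
    have h2 : ∀ q : L ⧸ L', ∑ v ∈ lev X n, F v (S.wsec h v) q.out = φ h := by
      intro q
      set g : G := (Quotient.out q : L).1 with hg
      have hgL : g ∈ L := q.out.2
      have h3 : φ (g * h * g⁻¹) = φ h := by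
        have := hLφ g⁻¹ (L.inv_mem hgL) h
        rwa [inv_inv] at this
      rw [← h3, hdec _ ((S.LSt_normal n).conj_mem h hh g)]
      refine Finset.sum_bij (fun v _ => S.wact g v) (fun v hv => by simpa using hv)
        (fun u _ v _ huv => S.wact_injective g huv)
        (fun w hw => ⟨S.wact g⁻¹ w, by simpa using hw, by simp⟩) fun v hv => ?_
      rw [S.wsec_conj, hh v (mem_lev.1 hv)]
    rw [Finset.sum_congr rfl fun q _ => h2 q, Finset.sum_const, Finset.card_univ, nsmul_eq_mul,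
      inv_mul_cancel_left₀ hcard]

lemma sum_lev_succ39 (n : ℕ) (F : List X → ℚ) :
    ∑ w ∈ lev X (n + 1), F w = ∑ x : X, ∑ v ∈ lev X n, F (x :: v) := by
  rw [← Finset.sum_product']
  refine (Finset.sum_bij (fun p _ => p.1 :: p.2) (fun p hp => ?_) (fun p _ q _ h => ?_)
    (fun w hw => ?_) (fun p _ => rfl)).symm
  · simp only [Finset.mem_product, Finset.mem_univ, true_and, mem_lev] at hp
    simp [hp]
  · rw [List.cons.injEq] at h
    exact Prod.ext h.1 h.2
  · rw [mem_lev] at hw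
    match w, hw with
    | x :: v, hw => exact ⟨(x, v), by simpa using hw, rfl⟩

lemma sec_mem_LSt {n : ℕ} {g : G} (hg : g ∈ S.LSt (n + 1)) (x : X) : S.sec g x ∈ S.LSt n := by
  intro v hv
  have h1 := hg (x :: v) (by simp [hv])
  rw [S.wact_cons] at h1
  exact (List.cons.inj h1).2

/-- Relations between virtual homomorphisms killing `N 1` on the first level are trivial. -/
lemma rel_zero (hC : Core S) (hC10 : Stmt_C10) (ζ : X → G → ℚ) (hζ : ∀ x, IsVHom (ζ x))
    (h1 : ∀ x, ∀ h ∈ S.N 1, ζ x h = 0) (hrel : ∀ a ∈ S.LSt 1, ∑ x, ζ x (S.sec a x) = 0) (x : X)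
    (g : G) : ζ x g = 0 := by
  classical
  have hX := hC.nonempty
  obtain ⟨L, hL, hLf, hLc⟩ := exists_inv_subgroup ζ hζ
  obtain ⟨n, hn⟩ := hC.q1 L hL hLf
  have hex : ∀ x, ∃ c' : List X → G → ℚ, (∀ v a b, c' v (a * b) = c' v a + c' v b) ∧
      ∀ h ∈ S.LSt n, ζ x h = ∑ v ∈ lev X n, c' v (S.wsec h v) := by
    intro x
    obtain ⟨c, hc, hdec⟩ := exists_decomp hC hC10 (hζ x) (h1 x) n
    exact exists_avg n L (fun g hg h => hLc x g hg h) (fun v hv => hn v hv.ge) c hc hdec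
  choose c hcadd hcdec using hex
  let Z : List X → G → ℚ := fun w => match w with
    | [] => fun _ => 0
    | x :: v => c x v
  have hZadd : ∀ w a b, Z w (a * b) = Z w a + Z w b := by
    intro w a b
    match w with
    | [] => simp [Z]
    | x :: v => exact hcadd x v a b
  have hZ := hC.tf (n + 1) Z hZadd (fun g hg => by
    rw [sum_lev_succ39]
    have h2 : ∀ x, ∑ v ∈ lev X n, Z (x :: v) (S.wsec g (x :: v)) = ζ x (S.sec g x) := by
      intro x
      rw [hcdec x _ (sec_mem_LSt hg x)]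
      rfl
    rw [Finset.sum_congr rfl fun x _ => h2 x]
    exact hrel g (S.LSt_antitone (by omega) hg))
  have h3 : ∀ h ∈ S.LSt n, ζ x h = 0 := by
    intro h hh
    rw [hcdec x h hh]
    refine Finset.sum_eq_zero fun v hv => ?_
    exact hZ (x :: v) (by simp [mem_lev.1 hv]) _
  have h4 := isVHom_ext (ζ x) (fun _ => 0) (hζ x) isVHom_zero39 (S.LSt n) (S.LSt_finiteIndex n) h3
  rw [h4]

end PCF
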