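import Pool.Agent.Work.MP_80ff4e_al_helper39.TR
import Pool.Agent.Work.MP_80ff4e_al_helper39.W

/-!
Block GEN, part 1: relations generated by loops.
-/

set_option autoImplicit false

open Polynomial unitInterval

namespace PCF

variable {f : ℂ[X]} {P : Set ℂ}

lemma Av.symm {a b : ℂ} {γ : Path a b} (h : Av P γ) : Av P γ.symm := fun _ => h _

lemma Av.trans {a b c : ℂ} {γ : Path a b} {δ : Path b c} (h : Av P γ) (h' : Av P δ) :
    Av P (γ.trans δ) := by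
  intro s
  rw [Path.trans_apply]
  split_ifs
  · exact h _
  · exact h' _

lemma tr_val {n : ℕ} {a b a' b' : ℂ} {γ : Path a b} {γ' : Path a' b'} (h : ∀ s, γ s = γ' s)
    {x y : ℂ} : Tr f n γ x y ↔ Tr f n γ' x y :=
  ⟨fun ⟨Γ, hΓ⟩ => ⟨Γ, fun s => by rw [hΓ, h]⟩, fun ⟨Γ, hΓ⟩ => ⟨Γ, fun s => by rw [hΓ, h]⟩⟩

lemma tr_exists' (hA : Adm f P) (n : ℕ) {a b : ℂ} (γ : Path a b) (hγ : Av P γ) (w : ℂ)
    (hw : it f n w = b) : ∃ z, Tr f n γ z w := by
  obtain ⟨z, hz⟩ := tr_exists hA n γ.symm hγ.symm w hw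
  exact ⟨z, tr_symm_iff.1 hz⟩

lemma tr_unique' (hA : Adm f P) {n : ℕ} {a b : ℂ} {γ : Path a b} (hγ : Av P γ) {z z' w : ℂ}
    (h : Tr f n γ z w) (h' : Tr f n γ z' w) : z = z' :=
  tr_unique hA hγ.symm (tr_symm h) (tr_symm h')

/-- An inclusion of transports is an equality. -/
lemma teq_of_imp (hA : Adm f P) {a b : ℂ} {γ γ' : Path a b} (hγ : Av P γ) (hγ' : Av P γ')
    (h : ∀ n x y, Tr f n γ x y → Tr f n γ' x y) (n : ℕ) (x y : ℂ) :
    Tr f n γ x y ↔ Tr f n γ' x y := by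
  refine ⟨h n x y, fun h' => ?_⟩
  obtain ⟨y', hy'⟩ := tr_exists hA n γ hγ x (tr_ends h').1
  rw [tr_unique hA hγ' h' (h n x y' hy')]
  exact hy'

/-! ### Relations generated by a set of loops -/

/-- The relation `R` is the transport along a product of loops in `S`. -/
def GenRel (f : ℂ[X]) {b : ℂ} (S : Set (Path b b)) (R : ℕ → ℂ → ℂ → Prop) : Prop :=
  ∃ l : List (Path b b), (∀ θ ∈ l, θ ∈ S) ∧ ∀ n x y, R n x y ↔ Tr f n (catL l) x y

lemma genRel_id (hA : Adm f P) {b : ℂ} (hb : b ∉ P) (S : Set (Path b b)) :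
    GenRel f S (fun n x y => x = y ∧ it f n x = b) :=
  ⟨[], by simp, fun n x y => (tr_refl_iff hA hb).symm⟩

lemma genRel_mono {b : ℂ} {S S' : Set (Path b b)} (h : S ⊆ S') {R : ℕ → ℂ → ℂ → Prop}
    (hR : GenRel f S R) : GenRel f S' R := by
  obtain ⟨l, h1, h2⟩ := hR
  exact ⟨l, fun θ hθ => h (h1 θ hθ), h2⟩

lemma genRel_congr {b : ℂ} {S : Set (Path b b)} {R R' : ℕ → ℂ → ℂ → Prop}
    (hR : GenRel f S R) (h : ∀ n x y, R' n x y ↔ R n x y) : GenRel f S R' := by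
  obtain ⟨l, h1, h2⟩ := hR
  exact ⟨l, h1, fun n x y => by rw [h, h2]⟩

lemma catL_append (hA : Adm f P) {b : ℂ} (hb : b ∉ P) (l l' : List (Path b b)) (n : ℕ) (x z : ℂ) :
    Tr f n (catL (l ++ l')) x z ↔ ∃ y, Tr f n (catL l) x y ∧ Tr f n (catL l') y z := by
  induction l generalizing x with
  | nil =>
    rw [List.nil_append]
    constructor
    · intro h
      exact ⟨x, tr_refl (tr_ends h).1, h⟩
    · rintro ⟨y, h, h'⟩
      rw [((tr_refl_iff hA hb).1 h).1]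
      exact h'
  | cons θ l ih =>
    rw [List.cons_append]
    change Tr f n (θ.trans (catL (l ++ l'))) x z ↔
      ∃ y, Tr f n (θ.trans (catL l)) x y ∧ Tr f n (catL l') y z
    rw [tr_trans_iff]
    constructor
    · rintro ⟨u, h1, h2⟩
      obtain ⟨y, h3, h4⟩ := (ih u).1 h2
      exact ⟨y, tr_trans h1 h3, h4⟩
    · rintro ⟨y, h1, h2⟩
      obtain ⟨u, h3, h4⟩ := tr_trans_iff.1 h1
      exact ⟨u, h3, (ih u).2 ⟨y, h4, h2⟩⟩

lemma genRel_comp (hA : Adm f P) {b : ℂ} (hb : b ∉ P) {S : Set (Path b b)}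
    {R R' : ℕ → ℂ → ℂ → Prop} (h : GenRel f S R) (h' : GenRel f S R') :
    GenRel f S (fun n x z => ∃ y, R n x y ∧ R' n y z) := by
  obtain ⟨l, h1, h2⟩ := h
  obtain ⟨l', h1', h2'⟩ := h'
  refine ⟨l ++ l', fun θ hθ => ?_, fun n x z => ?_⟩
  · rcases List.mem_append.1 hθ with h | h
    · exact h1 θ h
    · exact h1' θ h
  · rw [catL_append hA hb]
    simp only [h2, h2']

lemma genRel_of_mem (hA : Adm f P) {b : ℂ} (hb : b ∉ P) {S : Set (Path b b)} {θ : Path b b}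
    (hθ : θ ∈ S) : GenRel f S (fun n x y => Tr f n θ x y) := by
  refine ⟨[θ], by simpa using hθ, fun n x y => ?_⟩
  change _ ↔ Tr f n (θ.trans (Path.refl b)) x y
  rw [tr_trans_iff]
  constructor
  · intro h
    exact ⟨y, h, tr_refl (tr_ends h).2⟩
  · rintro ⟨u, h, h'⟩
    rw [← ((tr_refl_iff hA hb).1 h').1]
    exact h

/-- Conjugation of a relation by a path. -/
def Cj (f : ℂ[X]) {b c : ℂ} (ς : Path b c) (R : ℕ → ℂ → ℂ → Prop) : ℕ → ℂ → ℂ → Prop :=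
  fun n x y => ∃ u v, Tr f n ς x u ∧ R n u v ∧ Tr f n ς y v

lemma cj_iff {b c : ℂ} (ς : Path b c) (θ : Path c c) (n : ℕ) (x y : ℂ) :
    Cj f ς (fun n x y => Tr f n θ x y) n x y ↔ Tr f n ((ς.trans θ).trans ς.symm) x y := by
  unfold Cj
  rw [tr_trans_iff]
  constructor
  · rintro ⟨u, v, h1, h2, h3⟩
    exact ⟨v, tr_trans h1 h2, tr_symm h3⟩
  · rintro ⟨v, h1, h2⟩
    obtain ⟨u, h3, h4⟩ := tr_trans_iff.1 h1
    exact ⟨u, v, h3, h4, tr_symm_iff.1 h2⟩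

lemma cj_gen (hA : Adm f P) {b c : ℂ} (hb : b ∉ P) (hc : c ∉ P) (ς : Path b c) (hς : Av P ς)
    {S : Set (Path b b)} {S₀ : Set (Path c c)}
    (hS : ∀ θ ∈ S₀, ∃ θ' ∈ S, ∀ n x y, Cj f ς (fun n x y => Tr f n θ x y) n x y ↔ Tr f n θ' x y)
    {R : ℕ → ℂ → ℂ → Prop} (hR : GenRel f S₀ R) : GenRel f S (Cj f ς R) := by
  obtain ⟨l, h1, h2⟩ := hR
  have key : ∀ l : List (Path c c), (∀ θ ∈ l, θ ∈ S₀) →
      GenRel f S (Cj f ς (fun n x y => Tr f n (catL l) x y)) := by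
    intro l
    induction l with
    | nil =>
      intro _
      refine genRel_congr (genRel_id hA hb S) fun n x y => ?_
      constructor
      · rintro ⟨u, v, h3, h4, h5⟩
        rw [((tr_refl_iff hA hc).1 h4).1] at h3
        exact ⟨tr_unique' hA hς h3 h5, (tr_ends h3).1⟩
      · rintro ⟨rfl, h3⟩
        obtain ⟨u, hu⟩ := tr_exists hA n ς hς x h3
        exact ⟨u, u, hu, tr_refl (tr_ends hu).2, hu⟩
    | cons θ l ih =>
      intro hl
      obtain ⟨θ', hθ', h3⟩ := hS θ (hl θ (by simp))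
      refine genRel_congr (genRel_comp hA hb (genRel_of_mem hA hb hθ')
        (ih fun τ hτ => hl τ (by simp [hτ]))) fun n x z => ?_
      constructor
      · rintro ⟨u, v, h4, h5, h6⟩
        obtain ⟨w, h7, h8⟩ := tr_trans_iff.1 h5
        obtain ⟨y, hy⟩ := tr_exists' hA n ς hς w (tr_ends h7).2
        exact ⟨y, (h3 n x y).1 ⟨u, w, h4, h7, hy⟩, w, v, hy, h8, h6⟩
      · rintro ⟨y, h4, w, v, h5, h6, h7⟩
        obtain ⟨u, w', h8, h9, h10⟩ := (h3 n x y).2 h4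
        have h11 := tr_unique hA hς h10 h5
        subst h11
        exact ⟨u, v, h8, tr_trans h9 h6, h7⟩
  refine genRel_congr (key l h1) fun n x y => ?_
  unfold Cj
  simp only [h2]

/-! ### Paths inside open sets -/

/-- Perturbation inside an open set. -/
lemma exists_path_in {U : Set ℂ} (hU : IsOpen U) (hP : P.Finite) {a b : ℂ} (ha : a ∉ P)
    (hb : b ∉ P) (γ : Path a b) (hγ : ∀ s, γ s ∈ U) :
    ∃ γ' : Path a b, Av P γ' ∧ ∀ s, γ' s ∈ U := by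
  obtain ⟨δ, hδ, hd⟩ := (isCompact_range γ.continuous).exists_thickening_subset_open hU (by
    rintro _ ⟨s, rfl⟩; exact hγ s)
  obtain ⟨γ', h1, h2⟩ := exists_perturb P hP ha hb γ hδ
  refine ⟨γ', h1, fun s => hd (Metric.mem_thickening_iff.2 ⟨γ s, ⟨s, rfl⟩, ?_⟩)⟩
  rw [dist_eq_norm]
  exact h2 s

/-- The straight path. -/
noncomputable def lin (a b : ℂ) : Path a b :=
  ⟨⟨fun s => (1 - ((s : ℝ) : ℂ)) * a + ((s : ℝ) : ℂ) * b, by fun_prop⟩, by simp, by simp⟩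

lemma lin_apply (a b : ℂ) (s : I) : lin a b s = (1 - ((s : ℝ) : ℂ)) * a + ((s : ℝ) : ℂ) * b := rfl

lemma lin_mem {C : Set ℂ} (hC : Convex ℝ C) {a b : ℂ} (ha : a ∈ C) (hb : b ∈ C) (s : I) :
    lin a b s ∈ C := by
  have h3 := hC ha hb (sub_nonneg.2 s.2.2) s.2.1 (by ring)
  have h4 : (1 - (s : ℝ)) • a + (s : ℝ) • b = lin a b s := by
    rw [lin_apply]
    simp [Complex.real_smul]
  rwa [h4] at h3

end PCF
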