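import Pool.Agent.Work.MP_80ff4e_al_helper39.GENa

/-!
Block GEN, part 2: logarithmic coordinates around a point.
-/

set_option autoImplicit false

open Polynomial unitInterval

namespace PCF

variable {f : ℂ[X]} {P : Set ℂ}

/-- The path `z + exp (L s)`. -/
noncomputable def xp (z : ℂ) {w w' : ℂ} (L : Path w w') :
    Path (z + Complex.exp w) (z + Complex.exp w') :=
  L.map (f := fun w => z + Complex.exp w) (by fun_prop)

lemma xp_apply (z : ℂ) {w w' : ℂ} (L : Path w w') (s : I) :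
    xp z L s = z + Complex.exp (L s) := rfl

/-- A convex open set `C` containing `z` and no other point of `P`. -/
structure Nbd (P : Set ℂ) (z : ℂ) (C : Set ℂ) : Prop where
  opn : IsOpen C
  cvx : Convex ℝ C
  mem : z ∈ C
  only : ∀ p ∈ P, p ∈ C → p = z

/-- The part of the logarithmic plane over `C`. -/
def Om (z : ℂ) (C : Set ℂ) : Set ℂ := {w | z + Complex.exp w ∈ C}

lemma Nbd.not_mem {z : ℂ} {C : Set ℂ} (h : Nbd P z C) {w : ℂ} (hw : w ∈ Om z C) :
    z + Complex.exp w ∉ P := by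
  intro h1
  have := h.only _ h1 hw
  rw [add_eq_left] at this
  exact Complex.exp_ne_zero _ this

lemma Nbd.radial {z : ℂ} {C : Set ℂ} (h : Nbd P z C) {w : ℂ} (hw : w ∈ Om z C) {r : ℝ}
    (hr : 0 ≤ r) : w - r ∈ Om z C := by
  have h1 : 0 ≤ 1 - Real.exp (-r) := by
    rw [sub_nonneg, Real.exp_le_one_iff]
    linarith
  have h2 := h.cvx h.mem hw h1 (Real.exp_pos (-r)).le (by ring)
  have h3 : (1 - Real.exp (-r)) • z + Real.exp (-r) • (z + Complex.exp w) =
      z + Complex.exp (w - r) := by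
    rw [Complex.real_smul, Complex.real_smul, sub_eq_add_neg w, Complex.exp_add]
    push_cast
    ring
  rw [h3] at h2
  exact h2

lemma Nbd.half {z : ℂ} {C : Set ℂ} (h : Nbd P z C) :
    ∃ c : ℝ, ∀ w : ℂ, w.re < c → w ∈ Om z C := by
  obtain ⟨ρ, hρ, hb⟩ := Metric.isOpen_iff.1 h.opn z h.mem
  refine ⟨Real.log ρ, fun w hw => hb ?_⟩
  rw [Metric.mem_ball, dist_eq_norm, add_sub_cancel_left, Complex.norm_exp,
    ← Real.lt_log_iff_exp_lt hρ]
  exact hw

/-- `w + 2 π i k`. -/
noncomputable def sh (k : ℤ) : ℂ := 2 * Real.pi * Complex.I * k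

lemma exp_add_sh (w : ℂ) (k : ℤ) : Complex.exp (w + sh k) = Complex.exp w := by
  have : w + sh k = w + k * (2 * Real.pi * Complex.I) := by unfold sh; ring
  rw [this, Complex.exp_add, Complex.exp_int_mul_two_pi_mul_I, mul_one]

lemma Nbd.add_sh {z : ℂ} {C : Set ℂ} {w : ℂ} (hw : w ∈ Om z C) (k : ℤ) : w + sh k ∈ Om z C := by
  change z + Complex.exp (w + sh k) ∈ C
  rw [exp_add_sh]
  exact hw

/-- In logarithmic coordinates transport only depends on the endpoints. -/
lemma Nbd.indep (hA : Adm f P) {z : ℂ} {C : Set ℂ} (h : Nbd P z C) {w w' : ℂ} (L L' : Path w w')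
    (hL : ∀ s, L s ∈ Om z C) (hL' : ∀ s, L' s ∈ Om z C) {n : ℕ} {x y : ℂ}
    (hx : Tr f n (xp z L) x y) : Tr f n (xp z L') x y := by
  obtain ⟨c, hc⟩ := h.half
  -- a large shift
  have hbd : ∀ L : Path w w', ∃ M : ℝ, ∀ s, (L s).re ≤ M := by
    intro L
    obtain ⟨M, hM⟩ := (isCompact_range (Complex.continuous_re.comp L.continuous)).bddAbove
    exact ⟨M, fun s => hM ⟨s, rfl⟩⟩
  obtain ⟨M₁, hM₁⟩ := hbd L
  obtain ⟨M₂, hM₂⟩ := hbd L'
  obtain ⟨M, hM0, hM, hM'⟩ : ∃ M : ℝ, 0 ≤ M ∧ M₁ - M < c ∧ M₂ - M < c := by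
    refine ⟨max 0 (max (M₁ - c + 1) (M₂ - c + 1)), le_max_left _ _, ?_, ?_⟩
    · have := (le_max_left (M₁ - c + 1) (M₂ - c + 1)).trans
        (le_max_right (0 : ℝ) (max (M₁ - c + 1) (M₂ - c + 1)))
      linarith
    · have := (le_max_right (M₁ - c + 1) (M₂ - c + 1)).trans
        (le_max_right (0 : ℝ) (max (M₁ - c + 1) (M₂ - c + 1)))
      linarith
  -- the shifted paths
  let sf : ∀ L : Path w w', Path (w - M) (w' - M) := fun L =>
    ⟨⟨fun s => L s - M, by fun_prop⟩, by simp, by simp⟩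
  have hsf : ∀ (L : Path w w') (s : I), sf L s = L s - M := fun _ _ => rfl
  let η := xp z (lin w (w - M))
  let θ := xp z (lin w' (w' - M))
  -- the squares
  let H : Path w w' → C(I × I, ℂ) := fun L =>
    ⟨fun p => z + Complex.exp (L p.2 - ((p.1 : ℝ) : ℂ) * M), by fun_prop⟩
  have hH : ∀ L : Path w w', (∀ s, L s ∈ Om z C) → ∀ p, H L p ∉ P := by
    intro L hL p
    apply h.not_mem
    have := h.radial (hL p.2) (mul_nonneg p.1.2.1 hM0)
    push_cast at this
    exact this
  obtain ⟨v, hv⟩ := tr_exists hA n θ (fun s => by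
    apply h.not_mem
    have h1 := h.radial (hL 1) (mul_nonneg s.2.1 hM0)
    rw [L.target] at h1
    have h2 : lin w' (w' - M) s = w' - (((s : ℝ) * M : ℝ) : ℂ) := by
      rw [lin_apply]; push_cast; ring
    rw [h2]
    exact h1) y (tr_ends hx).2
  obtain ⟨u, h1, h2⟩ := tr_square hA n (H L) (hH L hL) (xp z L) (xp z (sf L)) η θ
    (fun s => by
      change z + Complex.exp (L s - ((0 : ℝ) : ℂ) * M) = z + Complex.exp (L s)
      simp)
    (fun s => by
      change z + Complex.exp (L s - ((1 : ℝ) : ℂ) * M) = z + Complex.exp (L s - M)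
      simp)
    (fun r => by
      change z + Complex.exp (L 0 - ((r : ℝ) : ℂ) * M) = z + Complex.exp (lin w (w - M) r)
      rw [L.source, lin_apply]
      congr 2
      ring)
    (fun r => by
      change z + Complex.exp (L 1 - ((r : ℝ) : ℂ) * M) = z + Complex.exp (lin w' (w' - M) r)
      rw [L.target, lin_apply]
      congr 2
      ring) hx hv
  -- inside the half plane
  have h3 : Tr f n (xp z (sf L')) u v := by
    refine tr_homotopy_aux hA n
      ⟨fun p => z + Complex.exp ((1 - ((p.1 : ℝ) : ℂ)) * (L p.2 - M) + ((p.1 : ℝ) : ℂ) * (L' p.2 - M)),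
        by fun_prop⟩ (fun p => ?_) (xp z (sf L)) (xp z (sf L')) (fun s => ?_) (fun s => ?_)
      (fun r => ?_) (fun r => ?_) h2
    · apply h.not_mem
      apply hc
      have e1 : (L p.2).re - M < c := by linarith [hM₁ p.2]
      have e2 : (L' p.2).re - M < c := by linarith [hM₂ p.2]
      have e3 : ((1 - ((p.1 : ℝ) : ℂ)) * (L p.2 - M) + ((p.1 : ℝ) : ℂ) * (L' p.2 - M)).re =
          (1 - (p.1 : ℝ)) * ((L p.2).re - M) + (p.1 : ℝ) * ((L' p.2).re - M) := by
        simp [Complex.add_re, Complex.mul_re]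
      rw [e3]
      have e4 := p.1.2.1
      have e5 := p.1.2.2
      rcases eq_or_lt_of_le e4 with e6 | e6
      · rw [← e6]; linarith
      · nlinarith
    · change z + Complex.exp ((1 - ((0 : ℝ) : ℂ)) * (L s - M) + ((0 : ℝ) : ℂ) * (L' s - M)) =
        z + Complex.exp (L s - M)
      simp
    · change z + Complex.exp ((1 - ((1 : ℝ) : ℂ)) * (L s - M) + ((1 : ℝ) : ℂ) * (L' s - M)) =
        z + Complex.exp (L' s - M)
      simp
    · change z + Complex.exp ((1 - ((r : ℝ) : ℂ)) * (L 0 - M) + ((r : ℝ) : ℂ) * (L' 0 - M)) =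
        z + Complex.exp (w - M)
      rw [L.source, L'.source]
      congr 2
      ring
    · change z + Complex.exp ((1 - ((r : ℝ) : ℂ)) * (L 1 - M) + ((r : ℝ) : ℂ) * (L' 1 - M)) =
        z + Complex.exp (w' - M)
      rw [L.target, L'.target]
      congr 2
      ring
  -- the square for `L'`, transposed
  let H' : C(I × I, ℂ) :=
    ⟨fun p => z + Complex.exp (L' p.1 - ((p.2 : ℝ) : ℂ) * M), by fun_prop⟩
  obtain ⟨y', h4, h5⟩ := tr_square hA n H' (fun p => hH L' hL' (p.2, p.1)) η θ (xp z L')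
    (xp z (sf L'))
    (fun r => by
      change z + Complex.exp (L' 0 - ((r : ℝ) : ℂ) * M) = z + Complex.exp (lin w (w - M) r)
      rw [L'.source, lin_apply]
      congr 2
      ring)
    (fun r => by
      change z + Complex.exp (L' 1 - ((r : ℝ) : ℂ) * M) = z + Complex.exp (lin w' (w' - M) r)
      rw [L'.target, lin_apply]
      congr 2
      ring)
    (fun s => by
      change z + Complex.exp (L' s - ((0 : ℝ) : ℂ) * M) = z + Complex.exp (L' s)
      simp)
    (fun s => by
      change z + Complex.exp (L' s - ((1 : ℝ) : ℂ) * M) = z + Complex.exp (L' s - M)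
      simp) h1 h3
  have h6 : y' = y := tr_unique' hA (fun s => by
    apply h.not_mem
    have h1 := h.radial (hL 1) (mul_nonneg s.2.1 hM0)
    rw [L.target] at h1
    have h2 : lin w' (w' - M) s = w' - (((s : ℝ) * M : ℝ) : ℂ) := by
      rw [lin_apply]; push_cast; ring
    rw [h2]
    exact h1) h5 hv
  rw [← h6]
  exact h4

end PCF
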