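import Pool.Agent.Work.MP_80ff4e_al_helper39.GENb

/-!
Block GEN, part 3: convex sets with exactly one point of `P`.
-/

set_option autoImplicit false

open Polynomial unitInterval

namespace PCF

variable {f : ℂ[X]} {P : Set ℂ}

/-- A small loop around `z` with a tail. -/
def Gd (P : Set ℂ) (z : ℂ) {b : ℂ} (θ : Path b b) : Prop :=
  ∃ (a : ℂ) (η : Path b a) (ρ : ℝ) (δ : Path a a), Av P η ∧ Small P z ρ δ ∧
    θ = (η.trans δ).trans η.symm

/-- The generators with their inverses. -/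
def SG (P C : Set ℂ) {b : ℂ} (g : ℂ → Path b b) : Set (Path b b) :=
  {θ | ∃ z ∈ P, z ∈ C ∧ (θ = g z ∨ θ = (g z).symm)}

/-- The loops at `b` in `C ∖ P` are generated by small loops with tails, one for every point. -/
def GenAt (f : ℂ[X]) (P C : Set ℂ) (b : ℂ) : Prop :=
  ∃ g : ℂ → Path b b, (∀ z ∈ P, z ∈ C → Gd P z (g z)) ∧
    ∀ γ : Path b b, Av P γ → (∀ s, γ s ∈ C) →
      GenRel f (SG P C g) (fun n x y => Tr f n γ x y)

lemma xp_trans (z : ℂ) {w w' w'' : ℂ} (L : Path w w') (L' : Path w' w'') :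
    xp z (L.trans L') = (xp z L).trans (xp z L') := by
  unfold xp
  exact Path.map_trans _ _ _

lemma Nbd.av {z : ℂ} {C : Set ℂ} (h : Nbd P z C) {w w' : ℂ} {L : Path w w'}
    (hL : ∀ s, L s ∈ Om z C) : Av P (xp z L) := fun s => h.not_mem (hL s)

lemma trans_mem {C : Set ℂ} {a b c : ℂ} {γ : Path a b} {δ : Path b c} (h : ∀ s, γ s ∈ C)
    (h' : ∀ s, δ s ∈ C) : ∀ s, (γ.trans δ) s ∈ C := by
  intro s
  rw [Path.trans_apply]
  split_ifs
  · exact h _
  · exact h' _

/-- Translation of a path. -/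
noncomputable def trl {w w' : ℂ} (L : Path w w') (v : ℂ) : Path (w + v) (w' + v) :=
  ⟨⟨fun s => L s + v, by fun_prop⟩, by simp, by simp⟩

lemma trl_apply {w w' : ℂ} (L : Path w w') (v : ℂ) (s : I) : trl L v s = L s + v := rfl

lemma sh_add (k l : ℤ) : sh (k + l) = sh k + sh l := by unfold sh; push_cast; ring

/-- The inductive step. -/
lemma Nbd.step (hA : Adm f P) {z : ℂ} {C : Set ℂ} (h : Nbd P z C) {w₀ : ℂ}
    (h0 : w₀ ∈ Om z C) {S : Set (Path (z + Complex.exp w₀) (z + Complex.exp w₀))} (k ε : ℤ)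
    (Lk : Path w₀ (w₀ + sh k)) (hLk : ∀ s, Lk s ∈ Om z C)
    (Le : Path w₀ (w₀ + sh ε)) (hLe : ∀ s, Le s ∈ Om z C) {θ : Path (z + Complex.exp w₀)
      (z + Complex.exp w₀)} (hθ : θ ∈ S) (hθL : ∀ s, xp z Le s = θ s)
    (hk : ∀ L : Path w₀ (w₀ + sh k), (∀ s, L s ∈ Om z C) →
      GenRel f S (fun n x y => Tr f n (xp z L) x y)) :
    ∀ L : Path w₀ (w₀ + sh (k + ε)), (∀ s, L s ∈ Om z C) →
      GenRel f S (fun n x y => Tr f n (xp z L) x y) := by
  intro L hL
  have hb : z + Complex.exp w₀ ∉ P := h.not_mem h0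
  have e1 : w₀ + sh (k + ε) = w₀ + sh ε + sh k := by rw [sh_add]; ring
  let L₂ : Path w₀ (w₀ + sh (k + ε)) := (Lk.trans (trl Le (sh k))).cast rfl e1
  have hL₂ : ∀ s, L₂ s ∈ Om z C := fun s => trans_mem hLk
    (fun s => by rw [trl_apply]; exact Nbd.add_sh (hLe s) k) s
  refine genRel_congr (genRel_comp hA hb (hk Lk hLk) (genRel_of_mem hA hb hθ)) fun n x y => ?_
  have h1 : Tr f n (xp z L) x y ↔ Tr f n (xp z L₂) x y :=
    ⟨h.indep hA L L₂ hL hL₂, h.indep hA L₂ L hL₂ hL⟩
  have h2 : Tr f n (xp z L₂) x y ↔ Tr f n (xp z (Lk.trans (trl Le (sh k)))) x y :=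
    tr_val fun s => rfl
  rw [h1, h2, xp_trans, tr_trans_iff]
  have h3 : ∀ u, Tr f n (xp z (trl Le (sh k))) u y ↔ Tr f n θ u y := fun u => tr_val fun s => by
    rw [← hθL, xp_apply, xp_apply, trl_apply, exp_add_sh]
  simp only [h3]

lemma sh_re (k : ℤ) : (sh k).re = 0 := by
  have : sh k = ((2 * Real.pi * k : ℝ) : ℂ) * Complex.I := by unfold sh; push_cast; ring
  rw [this]
  simp

/-- The one point case. -/
lemma Nbd.genAt (hA : Adm f P) {z : ℂ} {C : Set ℂ} (h : Nbd P z C) (hz : z ∈ P) {b : ℂ}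
    (hb : b ∈ C) (hbP : b ∉ P) : GenAt f P C b := by
  have hbz : b ≠ z := fun e => hbP (e ▸ hz)
  obtain ⟨w₀, rfl⟩ : ∃ w₀, b = z + Complex.exp w₀ :=
    ⟨Complex.log (b - z), by rw [Complex.exp_log (sub_ne_zero.2 hbz)]; ring⟩
  have h0 : w₀ ∈ Om z C := hb
  obtain ⟨c, hc⟩ := h.half
  obtain ⟨M, hM0, hM⟩ : ∃ M : ℝ, 0 ≤ M ∧ w₀.re - M < c :=
    ⟨max 0 (w₀.re - c + 1), le_max_left _ _, by have := le_max_right 0 (w₀.re - c + 1); linarith⟩
  let w₁ : ℂ := w₀ - M
  have hw₁ : w₁.re < c := by simpa [w₁] using hM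
  have hLη : ∀ s, lin w₀ w₁ s ∈ Om z C := by
    intro s
    have h1 := h.radial h0 (mul_nonneg s.2.1 hM0)
    have h2 : lin w₀ w₁ s = w₀ - (((s : ℝ) * M : ℝ) : ℂ) := by
      rw [lin_apply]; push_cast; ring
    rw [h2]
    exact h1
  have hvert : ∀ (k : ℤ) (s : I), (lin w₁ (w₁ + sh k) s).re = w₁.re := by
    intro k s
    have h2 : lin w₁ (w₁ + sh k) s = w₁ + ((s : ℝ) : ℂ) * sh k := by
      rw [lin_apply]; ring
    rw [h2, Complex.add_re, Complex.re_ofReal_mul, sh_re, mul_zero, add_zero]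
  have hLδ : ∀ (k : ℤ) (s : I), lin w₁ (w₁ + sh k) s ∈ Om z C := fun k s =>
    hc _ (by rw [hvert]; exact hw₁)
  have hθval : ∀ (k : ℤ) (s : I), lin (w₁ + sh k) (w₀ + sh k) s = lin w₀ w₁ (σ s) + sh k := by
    intro k s
    rw [lin_apply, lin_apply, unitInterval.coe_symm_eq]
    push_cast
    ring
  have hLθ : ∀ (k : ℤ) (s : I), lin (w₁ + sh k) (w₀ + sh k) s ∈ Om z C := by
    intro k s
    rw [hθval]
    exact Nbd.add_sh (hLη _) k
  let Lk : ∀ k : ℤ, Path w₀ (w₀ + sh k) := fun k =>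
    ((lin w₀ w₁).trans (lin w₁ (w₁ + sh k))).trans (lin (w₁ + sh k) (w₀ + sh k))
  have hLk : ∀ (k : ℤ) (s : I), Lk k s ∈ Om z C := fun k =>
    trans_mem (trans_mem hLη (hLδ k)) (hLθ k)
  -- the generator
  let η : Path (z + Complex.exp w₀) (z + Complex.exp w₁) := xp z (lin w₀ w₁)
  let δ : Path (z + Complex.exp w₁) (z + Complex.exp w₁) :=
    (xp z (lin w₁ (w₁ + sh 1))).cast rfl (by rw [exp_add_sh])
  have hδ : ∀ s, δ s = z + Complex.exp (lin w₁ (w₁ + sh 1) s) := fun _ => rfl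
  have hSmall : Small P z (Real.exp c) δ := by
    refine ⟨fun p hp hpz => ?_, fun s => ⟨?_, ?_⟩, ?_⟩
    · by_contra hne
      have h1 : Complex.log (p - z) ∈ Om z C := by
        apply hc
        rw [Complex.log_re, Real.log_lt_iff_lt_exp (norm_pos_iff.2 (sub_ne_zero.2 hne))]
        exact hpz
      have h2 : z + Complex.exp (Complex.log (p - z)) = p := by
        rw [Complex.exp_log (sub_ne_zero.2 hne)]; ring
      have h3 : p ∈ C := by rw [← h2]; exact h1
      exact hne (h.only p hp h3)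
    · rw [hδ, Ne, add_eq_left]
      exact Complex.exp_ne_zero _
    · rw [hδ, add_sub_cancel_left, Complex.norm_exp, hvert]
      exact Real.exp_lt_exp.2 hw₁
    · refine ⟨(lin w₁ (w₁ + sh 1)).toContinuousMap, fun s => ?_, ?_⟩
      · change δ s - z = _
        rw [hδ, add_sub_cancel_left]
        rfl
      · change lin w₁ (w₁ + sh 1) 1 - lin w₁ (w₁ + sh 1) 0 = _
        rw [Path.target, Path.source, add_sub_cancel_left]
        rfl
  let G : Path (z + Complex.exp w₀) (z + Complex.exp w₀) := (η.trans δ).trans η.symm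
  refine ⟨fun _ => G, fun z' hz' hz'C => ?_, fun γ hγ hγC => ?_⟩
  · rw [h.only z' hz' hz'C]
    exact ⟨_, η, _, δ, h.av hLη, hSmall, rfl⟩
  · -- all powers
    have hG : ∀ s, xp z (Lk 1) s = G s := by
      intro s
      change xp z (((lin w₀ w₁).trans (lin w₁ (w₁ + sh 1))).trans (lin (w₁ + sh 1) (w₀ + sh 1))) s =
        ((η.trans δ).trans η.symm) s
      rw [xp_trans, xp_trans, Path.trans_apply, Path.trans_apply]
      split_ifs with h1
      · rw [Path.trans_apply, Path.trans_apply]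
        split_ifs with h2
        · rfl
        · rfl
      · rw [xp_apply, hθval, exp_add_sh]
        rfl
    have key : ∀ k : ℤ, ∀ L : Path w₀ (w₀ + sh k), (∀ s, L s ∈ Om z C) →
        GenRel f (SG P C fun _ => G) (fun n x y => Tr f n (xp z L) x y) := by
      intro k
      induction k using Int.induction_on with
      | zero =>
        intro L hL
        have hconst : ∀ s, lin w₀ (w₀ + sh 0) s = w₀ := by
          intro s
          rw [lin_apply]
          unfold sh
          push_cast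
          ring
        have hL0 : ∀ s, lin w₀ (w₀ + sh 0) s ∈ Om z C := fun s => by rw [hconst]; exact h0
        refine genRel_congr (genRel_id hA hbP _) fun n x y => ?_
        rw [← tr_refl_iff hA hbP]
        have h1 : Tr f n (xp z L) x y ↔ Tr f n (xp z (lin w₀ (w₀ + sh 0))) x y :=
          ⟨h.indep hA _ _ hL hL0, h.indep hA _ _ hL0 hL⟩
        rw [h1]
        exact tr_val fun s => by rw [xp_apply, hconst, Path.refl_apply]
      | succ i ih =>
        exact h.step hA h0 i 1 (Lk i) (hLk i) (Lk 1) (hLk 1) (θ := G) ⟨z, hz, h.mem, Or.inl rfl⟩ hG ih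
      | pred i ih =>
        -- the reversed generator
        let Lm : Path w₀ (w₀ + sh (-1)) := (trl (Lk 1).symm (sh (-1))).cast
          (by rw [add_assoc, ← sh_add]; unfold sh; push_cast; ring) rfl
        have hLm : ∀ s, Lm s ∈ Om z C := fun s => Nbd.add_sh (hLk 1 (σ s)) (-1)
        have hGS : G.symm ∈ SG P C (fun _ => G) := ⟨z, hz, h.mem, Or.inr rfl⟩
        have := h.step hA h0 (-i) (-1) (Lk (-i)) (hLk (-i)) Lm hLm hGS (fun s => by
            change _ = G (σ s)
            rw [← hG]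
            change z + Complex.exp (Lk 1 (σ s) + sh (-1)) = z + Complex.exp (Lk 1 (σ s))
            rw [exp_add_sh]) ih
        rw [sub_eq_add_neg]
        exact this
    -- the logarithm of the loop
    obtain ⟨L, hL⟩ := exists_log (γ.toContinuousMap - ContinuousMap.const I z) (fun s hs => by
      have h1 : γ s = z := sub_eq_zero.1 hs
      exact hγ s (by rw [h1]; exact hz))
    have hL' : ∀ s, γ s - z = Complex.exp (L s) := hL
    have h1 : Complex.exp (L 0) = Complex.exp w₀ := by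
      rw [← hL', γ.source]; ring
    have h2 : Complex.exp (L 1) = Complex.exp (L 0) := by
      rw [← hL', ← hL', γ.source, γ.target]
    obtain ⟨m, hm⟩ := Complex.exp_eq_exp_iff_exists_int.1 h1
    obtain ⟨k, hk⟩ := Complex.exp_eq_exp_iff_exists_int.1 h2
    have hm' : L 0 = w₀ + sh m := by rw [hm]; unfold sh; ring
    have hk' : L 1 = L 0 + sh k := by rw [hk]; unfold sh; ring
    let L₀ : Path w₀ (w₀ + sh k) := ⟨⟨fun s => L s - sh m, by fun_prop⟩, by simp [hm'], by
      simp only [hk', hm']; ring⟩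
    have hval : ∀ s, xp z L₀ s = γ s := by
      intro s
      change z + Complex.exp (L s - sh m) = γ s
      rw [← exp_add_sh (L s - sh m) m, sub_add_cancel, ← hL']
      ring
    have hL₀ : ∀ s, L₀ s ∈ Om z C := fun s => by
      change xp z L₀ s ∈ C
      rw [hval]
      exact hγC s
    exact genRel_congr (key k L₀ hL₀) fun n x y => (tr_val hval).symm

end PCF
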