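import Pool.Agent.Work.MP_80ff4e_al.Interface3

/-!
Block TR, part 1: path lifting for iterates of a polynomial.
-/

set_option autoImplicit false

open Polynomial unitInterval

namespace PCF

variable {f : ℂ[X]} {P : Set ℂ}

lemma it_zero (f : ℂ[X]) (z : ℂ) : it f 0 z = z := rfl

lemma it_succ (f : ℂ[X]) (n : ℕ) (z : ℂ) : it f (n + 1) z = f.eval (it f n z) := by
  unfold it
  rw [Function.iterate_succ_apply']

lemma it_add (f : ℂ[X]) (m n : ℕ) (z : ℂ) : it f (m + n) z = it f n (it f m z) := by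
  unfold it
  rw [add_comm, Function.iterate_add_apply]

lemma itp_zero (f : ℂ[X]) : itp f 0 = X := rfl

lemma itp_succ (f : ℂ[X]) (n : ℕ) : itp f (n + 1) = f.comp (itp f n) := by
  unfold itp
  rw [Function.iterate_succ_apply']

lemma itp_eval (f : ℂ[X]) (n : ℕ) (z : ℂ) : (itp f n).eval z = it f n z := by
  induction n with
  | zero => rw [itp_zero, eval_X, it_zero]
  | succ n ih => rw [itp_succ, eval_comp, ih, it_succ]

lemma itp_natDegree (f : ℂ[X]) (n : ℕ) : (itp f n).natDegree = f.natDegree ^ n := by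
  induction n with
  | zero => rw [itp_zero, natDegree_X, pow_zero]
  | succ n ih => rw [itp_succ, natDegree_comp, ih, pow_succ, mul_comm]

lemma continuous_it (f : ℂ[X]) (n : ℕ) : Continuous (it f n) := by
  have : it f n = fun z => (itp f n).eval z := funext fun z => (itp_eval f n z).symm
  rw [this]
  exact (itp f n).continuous

lemma Adm.it_mem (hA : Adm f P) (n : ℕ) {z : ℂ} (hz : z ∈ P) : it f n z ∈ P := by
  induction n with
  | zero => exact hz
  | succ n ih => rw [it_succ]; exact hA.fwd _ ih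

lemma Adm.it_crit (hA : Adm f P) (n : ℕ) {c : ℂ} (hc : (itp f n).derivative.eval c = 0) :
    it f n c ∈ P := by
  induction n with
  | zero => simp [itp_zero] at hc
  | succ n ih =>
    rw [itp_succ, derivative_comp, eval_mul, eval_comp] at hc
    rw [it_succ]
    rcases mul_eq_zero.1 hc with h | h
    · exact hA.fwd _ (ih h)
    · rw [← itp_eval]
      exact hA.crit _ h

lemma Adm.not_mem_of_it (hA : Adm f P) {n : ℕ} {z : ℂ} (h : it f n z ∉ P) : z ∉ P :=
  fun hz => h (hA.it_mem n hz)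

/-- `fⁿ` is a covering over the complement of `P`. -/
lemma Adm.cov (hA : Adm f P) (n : ℕ) : IsCoveringMap (Pᶜ.restrictPreimage (it f n)) := by
  apply IsCoveringMapOn.isCoveringMap_restrictPreimage
  have h1 := (itp f n).isCoveringMapOn_eval
  have h2 : (fun z => (itp f n).eval z) = it f n := funext fun z => itp_eval f n z
  rw [h2] at h1
  apply h1.mono
  apply Set.compl_subset_compl.2
  rintro _ ⟨c, hc, rfl⟩
  exact hA.it_crit n hc

lemma Adm.lift_path (hA : Adm f P) (n : ℕ) (g : C(I, ℂ)) (hg : ∀ s, g s ∉ P) (e : ℂ)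
    (he : it f n e = g 0) : ∃ Γ : C(I, ℂ), (∀ s, it f n (Γ s) = g s) ∧ Γ 0 = e := by
  let g' : C(I, (Pᶜ : Set ℂ)) := ⟨fun s => ⟨g s, hg s⟩, by fun_prop⟩
  have he' : it f n e ∈ (Pᶜ : Set ℂ) := by rw [he]; exact hg 0
  obtain ⟨Γ, h1, h2⟩ := (hA.cov n).exists_path_lifts g' ⟨e, he'⟩ (Subtype.ext he.symm)
  refine ⟨⟨fun s => (Γ s).1, by fun_prop⟩, fun s => ?_, congrArg Subtype.val h2⟩
  exact congrArg Subtype.val (congrFun h1 s)

lemma Adm.lift_unique (hA : Adm f P) (n : ℕ) {A : Type} [TopologicalSpace A] [PreconnectedSpace A]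
    {F G : A → ℂ} (hF : Continuous F) (hG : Continuous G) (h : ∀ a, it f n (F a) = it f n (G a))
    (hP : ∀ a, it f n (F a) ∉ P) (a₀ : A) (h0 : F a₀ = G a₀) : F = G := by
  let F' : A → (it f n ⁻¹' Pᶜ : Set ℂ) := fun a => ⟨F a, hP a⟩
  let G' : A → (it f n ⁻¹' Pᶜ : Set ℂ) := fun a => ⟨G a, by
    rw [Set.mem_preimage, ← h a]; exact hP a⟩
  have hF' : Continuous F' := by fun_prop
  have hG' : Continuous G' := by fun_prop
  have h1 := (hA.cov n).eq_of_comp_eq hF' hG' (funext fun a => Subtype.ext (h a)) a₀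
    (Subtype.ext h0)
  funext a
  exact congrArg Subtype.val (congrFun h1 a)

lemma Adm.lift_homotopy (hA : Adm f P) (n : ℕ) (H : C(I × I, ℂ)) (hH : ∀ p, H p ∉ P) (e : C(I, ℂ))
    (he : ∀ s, it f n (e s) = H (0, s)) :
    ∃ G : C(I × I, ℂ), (∀ p, it f n (G p) = H p) ∧ ∀ s, G (0, s) = e s := by
  let H' : C(I × I, (Pᶜ : Set ℂ)) := ⟨fun s => ⟨H s, hH s⟩, by fun_prop⟩
  have he' : ∀ s, it f n (e s) ∈ (Pᶜ : Set ℂ) := fun s => by rw [he]; exact hH _
  let e' : C(I, (it f n ⁻¹' Pᶜ : Set ℂ)) := ⟨fun s => ⟨e s, he' s⟩, by fun_prop⟩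
  have h0 : ∀ s, H' (0, s) = Pᶜ.restrictPreimage (it f n) (e' s) :=
    fun s => Subtype.ext (he s).symm
  refine ⟨⟨fun p => ((hA.cov n).liftHomotopy H' e' h0 p).1, by fun_prop⟩, fun p => ?_, fun s => ?_⟩
  · exact congrArg Subtype.val (congrFun ((hA.cov n).liftHomotopy_lifts H' e' h0) p)
  · exact congrArg Subtype.val ((hA.cov n).liftHomotopy_zero H' e' h0 s)

/-! ### Transport -/

lemma tr_exists (hA : Adm f P) (n : ℕ) {a b : ℂ} (γ : Path a b) (hγ : Av P γ) (z : ℂ)
    (hz : it f n z = a) : ∃ w, Tr f n γ z w := by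
  obtain ⟨Γ, h1, h2⟩ := hA.lift_path n γ.toContinuousMap hγ z (by
    rw [hz]; exact γ.source.symm)
  exact ⟨Γ 1, ⟨Γ, h2, rfl⟩, h1⟩

lemma tr_unique (hA : Adm f P) {n : ℕ} {a b : ℂ} {γ : Path a b} (hγ : Av P γ) {z w w' : ℂ}
    (h : Tr f n γ z w) (h' : Tr f n γ z w') : w = w' := by
  obtain ⟨Γ, h1⟩ := h
  obtain ⟨Γ', h2⟩ := h'
  have := hA.lift_unique n Γ.continuous Γ'.continuous (fun s => by rw [h1, h2])
    (fun s => by rw [h1]; exact hγ s) 0 (by rw [Γ.source, Γ'.source])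
  have h3 := congrFun this 1
  rwa [Γ.target, Γ'.target] at h3

lemma tr_ends {n : ℕ} {a b : ℂ} {γ : Path a b} {z w : ℂ} (h : Tr f n γ z w) :
    it f n z = a ∧ it f n w = b := by
  obtain ⟨Γ, h1⟩ := h
  constructor
  · have := h1 0
    rwa [Γ.source, γ.source] at this
  · have := h1 1
    rwa [Γ.target, γ.target] at this

lemma tr_refl {n : ℕ} {a z : ℂ} (h : it f n z = a) : Tr f n (Path.refl a) z z :=
  ⟨Path.refl z, fun _ => h⟩

lemma tr_symm {n : ℕ} {a b : ℂ} {γ : Path a b} {z w : ℂ} (h : Tr f n γ z w) :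
    Tr f n γ.symm w z := by
  obtain ⟨Γ, h1⟩ := h
  exact ⟨Γ.symm, fun s => h1 _⟩

lemma tr_symm_iff {n : ℕ} {a b : ℂ} {γ : Path a b} {z w : ℂ} :
    Tr f n γ.symm w z ↔ Tr f n γ z w :=
  ⟨fun h => by have := tr_symm h; rwa [Path.symm_symm] at this, tr_symm⟩

lemma tr_trans {n : ℕ} {a b c : ℂ} {γ : Path a b} {δ : Path b c} {x y z : ℂ}
    (h : Tr f n γ x y) (h' : Tr f n δ y z) : Tr f n (γ.trans δ) x z := by
  obtain ⟨Γ, h1⟩ := h
  obtain ⟨Δ, h2⟩ := h'
  refine ⟨Γ.trans Δ, fun s => ?_⟩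
  rw [Path.trans_apply, Path.trans_apply]
  split_ifs
  · exact h1 _
  · exact h2 _

/-- A lift of a concatenation is a concatenation of lifts. -/
lemma tr_trans_iff {n : ℕ} {a b c : ℂ} {γ : Path a b} {δ : Path b c} {x z : ℂ} :
    Tr f n (γ.trans δ) x z ↔ ∃ y, Tr f n γ x y ∧ Tr f n δ y z := by
  constructor
  · rintro ⟨Λ, h⟩
    have e1 : (⟨1 / 2, by norm_num, by norm_num⟩ : I) = ⟨2⁻¹, by norm_num, by norm_num⟩ :=
      Subtype.ext (by norm_num)
    refine ⟨Λ ⟨1 / 2, by norm_num, by norm_num⟩,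
      ⟨⟨⟨fun s => Λ ⟨s / 2, by have := s.2.1; positivity, by have := s.2.2; linarith⟩,
        by fun_prop⟩, ?_, ?_⟩, fun s => ?_⟩,
      ⟨⟨⟨fun s => Λ ⟨(s + 1) / 2, by have := s.2.1; positivity, by have := s.2.2; linarith⟩,
        by fun_prop⟩, ?_, ?_⟩, fun s => ?_⟩⟩
    · simp
    · simp
    · change it f n (Λ _) = _
      rw [h, Path.trans_apply]
      have hs := s.2.2
      rw [dif_pos (by dsimp only; linarith)]
      congr 1
      exact Subtype.ext (by dsimp only; ring)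
    · simp
    · simp
    · change it f n (Λ _) = _
      rw [h, Path.trans_apply]
      have hs := s.2.1
      split_ifs with h1
      · dsimp only at h1
        have hs0 : (s : ℝ) = 0 := by linarith
        have e : s = 0 := Subtype.ext hs0
        subst e
        rw [δ.source]
        convert γ.target using 2
        exact Subtype.ext (by simp)
      · congr 1
        exact Subtype.ext (by dsimp only; ring)
  · rintro ⟨y, h, h'⟩
    exact tr_trans h h'

end PCF
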