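import Pool.Agent.Work.MP_80ff4e_al_helper39.TRa

/-!
Block TR, part 2: homotopies.
-/

set_option autoImplicit false

open Polynomial unitInterval

namespace PCF

variable {f : ℂ[X]} {P : Set ℂ}

/-- The square lemma. -/
lemma tr_square (hA : Adm f P) (n : ℕ) (H : C(I × I, ℂ)) (hH : ∀ p, H p ∉ P)
    {a b c d : ℂ} (γ : Path a b) (δ : Path c d) (η : Path a c) (θ : Path b d)
    (h0 : ∀ s, H (0, s) = γ s) (h1 : ∀ s, H (1, s) = δ s) (k0 : ∀ r, H (r, 0) = η r)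
    (k1 : ∀ r, H (r, 1) = θ r) {x y z : ℂ} (h : Tr f n γ x y) (h' : Tr f n θ y z) :
    ∃ u, Tr f n η x u ∧ Tr f n δ u z := by
  obtain ⟨Γ, hΓ⟩ := h
  obtain ⟨Θ, hΘ⟩ := h'
  obtain ⟨G, hG, hG0⟩ := hA.lift_homotopy n H hH Γ.toContinuousMap (fun s => by
    rw [h0]; exact hΓ s)
  have hG0' : ∀ s, G (0, s) = Γ s := hG0
  have e1 : (fun r : I => G (r, 1)) = Θ := by
    apply hA.lift_unique n (by fun_prop) Θ.continuous (fun r => by rw [hG, hΘ, k1])
      (fun r => by rw [hG]; exact hH _) 0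
    rw [hG0', Γ.target, Θ.source]
  refine ⟨G (1, 0), ⟨⟨⟨fun r => G (r, 0), by fun_prop⟩, ?_, rfl⟩, fun r => ?_⟩,
    ⟨⟨⟨fun s => G (1, s), by fun_prop⟩, rfl, ?_⟩, fun s => ?_⟩⟩
  · change G (0, 0) = x
    rw [hG0', Γ.source]
  · change it f n (G (r, 0)) = _
    rw [hG, k0]
  · change G (1, 1) = z
    rw [show G (1, 1) = Θ 1 from congrFun e1 1, Θ.target]
  · change it f n (G (1, s)) = _
    rw [hG, h1]

lemma tr_refl_iff (hA : Adm f P) {n : ℕ} {a x y : ℂ} (ha : a ∉ P) :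
    Tr f n (Path.refl a) x y ↔ x = y ∧ it f n x = a := by
  constructor
  · intro h
    have h1 := (tr_ends h).1
    exact ⟨tr_unique hA (fun _ => ha) (tr_refl h1) h, h1⟩
  · rintro ⟨rfl, h⟩
    exact tr_refl h

/-- Homotopies rel endpoints. -/
lemma tr_homotopy_aux (hA : Adm f P) (n : ℕ) (H : C(I × I, ℂ)) (hH : ∀ p, H p ∉ P)
    {a b : ℂ} (γ δ : Path a b) (h0 : ∀ s, H (0, s) = γ s) (h1 : ∀ s, H (1, s) = δ s)
    (k0 : ∀ r, H (r, 0) = a) (k1 : ∀ r, H (r, 1) = b) {x y : ℂ} (h : Tr f n γ x y) :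
    Tr f n δ x y := by
  have ha : a ∉ P := by rw [← k0 0]; exact hH _
  obtain ⟨u, h2, h3⟩ := tr_square hA n H hH γ δ (Path.refl a) (Path.refl b) h0 h1 k0 k1 h
    (tr_refl (tr_ends h).2)
  rw [tr_refl_iff hA ha] at h2
  rw [h2.1]
  exact h3

lemma tr_homotopy (hA : Adm f P) (n : ℕ) {a b : ℂ} (γ γ' : Path a b) (H : γ.Homotopy γ')
    (hH : ∀ p, H p ∉ P) {z w : ℂ} (h : Tr f n γ z w) : Tr f n γ' z w :=
  tr_homotopy_aux hA n H.toContinuousMap hH γ γ' (fun s => H.apply_zero s)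
    (fun s => H.apply_one s) (fun r => H.source r) (fun r => H.target r) h

/-- Straight-line homotopies. -/
lemma tr_segment (hA : Adm f P) (n : ℕ) {a b : ℂ} (γ γ' : Path a b)
    (hH : ∀ r s : I, (1 - r : ℂ) * γ s + r * γ' s ∉ P) {z w : ℂ} (h : Tr f n γ z w) :
    Tr f n γ' z w := by
  refine tr_homotopy_aux hA n ⟨fun p => (1 - ((p.1 : ℝ) : ℂ)) * γ p.2 + ((p.1 : ℝ) : ℂ) * γ' p.2,
    by fun_prop⟩ (fun p => hH p.1 p.2) γ γ' (fun s => ?_) (fun s => ?_) (fun r => ?_)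
    (fun r => ?_) h
  · simp
  · simp
  · simp only [ContinuousMap.coe_mk, Path.source]
    ring
  · simp only [ContinuousMap.coe_mk, Path.target]
    ring

lemma tr_convex (hA : Adm f P) (n : ℕ) {a b : ℂ} (γ γ' : Path a b) (C : Set ℂ) (hC : Convex ℝ C)
    (hd : Disjoint C P) (h1 : ∀ s, γ s ∈ C) (h2 : ∀ s, γ' s ∈ C) {z w : ℂ} (h : Tr f n γ z w) :
    Tr f n γ' z w := by
  refine tr_segment hA n γ γ' (fun r s => ?_) h
  have h3 := hC (h1 s) (h2 s) (sub_nonneg.2 r.2.2) r.2.1 (by ring)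
  have h4 : (1 - (r : ℝ)) • γ s + (r : ℝ) • γ' s = (1 - r : ℂ) * γ s + r * γ' s := by
    simp [Complex.real_smul]
  rw [h4] at h3
  exact Set.disjoint_left.1 hd h3

/-! ### Iterated lifts -/

lemma tr_iter (hA : Adm f P) (m n : ℕ) {a b : ℂ} (γ : Path a b) {z w : ℂ} (Γ : Path z w)
    (hγ : Av P γ) (hΓ : ∀ s, it f n (Γ s) = γ s) : Av P Γ ∧
      ∀ x y, it f m x = z → (Tr f m Γ x y ↔ Tr f (m + n) γ x y) := by
  have hAv : Av P Γ := fun s => hA.not_mem_of_it (n := n) (by rw [hΓ]; exact hγ s)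
  refine ⟨hAv, fun x y hx => ⟨?_, ?_⟩⟩
  · rintro ⟨Δ, hΔ⟩
    exact ⟨Δ, fun s => by rw [it_add, hΔ, hΓ]⟩
  · rintro ⟨Δ, hΔ⟩
    have e : (fun s : I => it f m (Δ s)) = Γ := by
      refine hA.lift_unique n ((continuous_it f m).comp Δ.continuous) Γ.continuous
        (fun s => ?_) (fun s => ?_) 0 ?_
      · rw [hΓ, ← it_add, hΔ]
      · rw [← it_add, hΔ]; exact hγ s
      · rw [Δ.source, Γ.source, hx]
    exact ⟨Δ, fun s => congrFun e s⟩

lemma tr_down (m n : ℕ) {a b : ℂ} (γ : Path a b) {x y : ℂ} (h : Tr f (m + n) γ x y) :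
    Tr f n γ (it f m x) (it f m y) := by
  obtain ⟨Δ, hΔ⟩ := h
  exact ⟨Δ.map (continuous_it f m), fun s => by
    rw [← hΔ s, it_add]; rfl⟩

/-! ### Connectivity and preimages -/

lemma exists_av_path (hP : P.Finite) {a b : ℂ} (ha : a ∉ P) (hb : b ∉ P) :
    ∃ γ : Path a b, Av P γ := by
  have h1 : IsPathConnected (Pᶜ : Set ℂ) :=
    hP.countable.isPathConnected_compl_of_one_lt_rank (by
      rw [Complex.rank_real_complex]; exact_mod_cast Nat.one_lt_ofNat)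
  obtain ⟨γ, hγ⟩ := h1.joinedIn a ha b hb
  exact ⟨γ, hγ⟩

lemma card_fibre (hA : Adm f P) (n : ℕ) {a : ℂ} (ha : a ∉ P) :
    (fibre (itp f n) a).card = f.natDegree ^ n := by
  have hd : 1 ≤ (itp f n).natDegree := by
    rw [itp_natDegree]
    exact Nat.one_le_pow _ _ (by have := hA.deg; omega)
  have h0 : itp f n - C a ≠ 0 := by
    intro h
    have h1 : (itp f n - C a).natDegree = (itp f n).natDegree := natDegree_sub_C
    rw [h, natDegree_zero] at h1
    omega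
  have hnd : (itp f n - C a).roots.Nodup := by
    rw [Multiset.nodup_iff_count_le_one]
    intro z
    rw [count_roots]
    by_contra hcon
    push Not at hcon
    have h2 := (one_lt_rootMultiplicity_iff_isRoot h0).1 hcon
    obtain ⟨h3, h4⟩ := h2
    have h5 : (itp f n).eval z = a := by
      rw [IsRoot, eval_sub, eval_C, sub_eq_zero] at h3
      exact h3
    have h6 : (itp f n).derivative.eval z = 0 := by
      rw [IsRoot, derivative_sub, derivative_C, sub_zero] at h4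
      exact h4
    have h7 := hA.it_crit n h6
    rw [← itp_eval, h5] at h7
    exact ha h7
  unfold fibre
  rw [Multiset.toFinset_card_of_nodup hnd, IsAlgClosed.card_roots_eq_natDegree, natDegree_sub_C,
    itp_natDegree]

end PCF
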